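import Mathlib

/-!
Condition (P) for unital rings: first consequences.
-/

namespace Pool.Agent.Lib.MP_5dc4fa_al.Alg

/-- Condition (P) for a monoid. -/
def PP (A : Type*) [Monoid A] : Prop :=
  ∀ x y : A, ∃ n : ℕ, 2 ≤ n ∧ (x * y) ^ n = x ^ n * y ^ n

/-- The exponents in (P) can be taken arbitrarily large. -/
theorem PP.large {A : Type*} [Monoid A] (h : PP A) (B : ℕ) (x y : A) :
    ∃ n : ℕ, B < n ∧ (x * y) ^ n = x ^ n * y ^ n := by
  induction B with
  | zero =>
    obtain ⟨n, hn, e⟩ := h x y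
    exact ⟨n, by omega, e⟩
  | succ B ih =>
    obtain ⟨n, hn, e⟩ := ih
    obtain ⟨m, hm, e'⟩ := h (x ^ n) (y ^ n)
    refine ⟨n * m, ?_, ?_⟩
    · nlinarith
    · rw [pow_mul, e, e', pow_mul, pow_mul]

theorem PP.map {A B : Type*} [Monoid A] [Monoid B] (h : PP A) (f : A →* B)
    (hf : Function.Surjective f) : PP B := by
  intro x y
  obtain ⟨x, rfl⟩ := hf x
  obtain ⟨y, rfl⟩ := hf y
  obtain ⟨n, hn, e⟩ := h x y
  exact ⟨n, hn, by rw [← map_mul, ← map_pow, e, map_mul, map_pow, map_pow]⟩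

theorem PP.comap {A B : Type*} [Monoid A] [Monoid B] (h : PP B) (f : A →* B)
    (hf : Function.Injective f) : PP A := by
  intro x y
  obtain ⟨n, hn, e⟩ := h (f x) (f y)
  exact ⟨n, hn, hf (by rw [map_pow, map_mul, e, map_mul, map_pow, map_pow])⟩

/-- A product of a nilpotent element with any element is nilpotent. -/
theorem PP.nilpotent_mul {A : Type*} [MonoidWithZero A] (h : PP A) {x : A} (hx : IsNilpotent x)
    (y : A) : IsNilpotent (x * y) := by
  obtain ⟨k, hk⟩ := hx
  obtain ⟨n, hn, e⟩ := h.large k x y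
  exact ⟨n, by rw [e, pow_eq_zero_of_le hn.le hk, zero_mul]⟩

theorem PP.mul_nilpotent {A : Type*} [MonoidWithZero A] (h : PP A) {x : A} (hx : IsNilpotent x)
    (y : A) : IsNilpotent (y * x) := by
  obtain ⟨k, hk⟩ := hx
  obtain ⟨n, hn, e⟩ := h.large k y x
  exact ⟨n, by rw [e, pow_eq_zero_of_le hn.le hk, mul_zero]⟩

/-- An element of a ring some powers of which lie in a finitely generated submodule over a
noetherian ring is integral. -/
theorem isIntegral_of_large {O A : Type*} [CommRing O] [IsNoetherianRing O] [Ring A] [Algebra O A]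
    (M : Submodule O A) (hM : M.FG) (z : A) (h : ∀ B : ℕ, ∃ n, B < n ∧ z ^ n ∈ M) :
    IsIntegral O z := by
  have : IsNoetherian O M := isNoetherian_of_fg_of_noetherian M hM
  -- submodules of `M` stabilize
  let U : ℕ →o Submodule O M :=
    ⟨fun N => ((Polynomial.degreeLT O N).map (Polynomial.aeval z).toLinearMap).comap M.subtype,
      fun a b hab => Submodule.comap_mono (Submodule.map_mono
        (Polynomial.degreeLT_mono hab))⟩
  obtain ⟨N, hN⟩ := monotone_stabilizes_iff_noetherian.mpr this U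
  obtain ⟨n, hn, hz⟩ := h N
  have h1 : (⟨z ^ n, hz⟩ : M) ∈ U (n + 1) := by
    change z ^ n ∈ (Polynomial.degreeLT O (n + 1)).map (Polynomial.aeval z).toLinearMap
    refine ⟨Polynomial.X ^ n, ?_, by simp⟩
    rw [SetLike.mem_coe, Polynomial.mem_degreeLT]
    exact lt_of_le_of_lt (Polynomial.degree_X_pow_le n) (by exact_mod_cast Nat.lt_succ_self n)
  have h2 : (⟨z ^ n, hz⟩ : M) ∈ U n := by
    rw [← hN n hn.le, hN (n + 1) (by omega)]
    exact h1
  obtain ⟨p, hp, hpz⟩ := (show z ^ n ∈ (Polynomial.degreeLT O n).map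
    (Polynomial.aeval z).toLinearMap from h2)
  rw [SetLike.mem_coe, Polynomial.mem_degreeLT] at hp
  refine ⟨Polynomial.X ^ n - p, Polynomial.monic_X_pow_sub (by
    nontriviality O
    exact hp) , ?_⟩
  rw [← Polynomial.aeval_def, map_sub, sub_eq_zero]
  simpa using hpz.symm

/-- In a ring with (P), products of integral elements are integral. -/
theorem PP.isIntegral_mul {O A : Type*} [CommRing O] [IsNoetherianRing O] [Ring A] [Algebra O A]
    (h : PP A) {x y : A} (hx : IsIntegral O x) (hy : IsIntegral O y) : IsIntegral O (x * y) := by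
  refine isIntegral_of_large ((Algebra.adjoin O {x}).toSubmodule * (Algebra.adjoin O {y}).toSubmodule)
    (hx.fg_adjoin_singleton.mul hy.fg_adjoin_singleton) _ fun B => ?_
  obtain ⟨n, hn, e⟩ := h.large B x y
  refine ⟨n, hn, ?_⟩
  rw [e]
  exact Submodule.mul_mem_mul
    (Subalgebra.pow_mem _ (Algebra.self_mem_adjoin_singleton O x) n)
    (Subalgebra.pow_mem _ (Algebra.self_mem_adjoin_singleton O y) n)

end Pool.Agent.Lib.MP_5dc4fa_al.Alg
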