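import Mathlib
import Pool.Agent.Lib.MP_5dc4fa_al.Alg.Basic
import Pool.Agent.Lib.MP_5dc4fa_al.Unit

section

section

/-!
A ring in which every nonzero element has finite multiplicative order is commutative.
-/

namespace Pool.Agent.Lib.MP_5dc4fa_al.Alg

open Polynomial

/-- Eigenvectors for a finite field acting by conjugation. -/
theorem exists_eigen {F E : Type*} [Field F] [Finite F] [Ring E] (φ : F →+* E) (α : F)
    (h : ∃ z, z * φ α ≠ φ α * z) :
    ∃ μ : F, μ ≠ α ∧ ∃ z : E, z ≠ 0 ∧ z * φ α = φ μ * z := by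
  classical
  have : Fintype F := Fintype.ofFinite F
  by_contra hcon
  push Not at hcon
  let _ : Module F E := Module.compHom E φ
  have smul_def : ∀ (f : F) (z : E), f • z = φ f * z := fun _ _ => rfl
  let R : Module.End F E :=
    { toFun := fun z => z * φ α
      map_add' := fun x y => add_mul x y _
      map_smul' := fun f x => by
        simp only [smul_def, RingHom.id_apply, mul_assoc] }
  have Rdef : ∀ z, R z = z * φ α := fun _ => rfl
  have Rpow : ∀ (n : ℕ) (z : E), (R ^ n) z = z * φ α ^ n := by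
    intro n
    induction n with
    | zero => intro z; simp
    | succ n ih =>
      intro z
      rw [pow_succ, Module.End.mul_apply, ih, Rdef, mul_assoc, ← pow_succ']
  have hprod : (X ^ Fintype.card F - X : F[X]) = ∏ μ : F, (X - C μ) := by
    have h1 := prod_multiset_X_sub_C_of_monic_of_roots_card_eq
      (p := (X ^ Fintype.card F - X : F[X]))
      (monic_X_pow_sub (by rw [degree_X]; exact_mod_cast Fintype.one_lt_card))
      (by
        rw [FiniteField.roots_X_pow_card_sub_X,
          FiniteField.X_pow_card_sub_X_natDegree_eq F Fintype.one_lt_card]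
        simp)
    rw [← h1, FiniteField.roots_X_pow_card_sub_X]
    rfl
  have hz : ∀ z, aeval R (X ^ Fintype.card F - X : F[X]) z = 0 := by
    intro z
    rw [map_sub, map_pow, aeval_X, LinearMap.sub_apply, Rpow, Rdef, ← map_pow,
      FiniteField.pow_card, sub_self]
  have hS : ∀ S : Finset F, α ∉ S → ∀ z, aeval R (∏ μ ∈ S, (X - C μ)) z = 0 → z = 0 := by
    intro S
    induction S using Finset.induction_on with
    | empty => intro _ z hz; simpa using hz
    | insert μ S hμ ih =>
      intro hα z hz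
      rw [Finset.prod_insert hμ, map_mul, Module.End.mul_apply] at hz
      refine ih (fun h => hα (Finset.mem_insert_of_mem h)) z ?_
      set w := aeval R (∏ μ ∈ S, (X - C μ)) z with hw
      have h2 : w * φ α = φ μ * w := by
        rw [map_sub, aeval_X, aeval_C, LinearMap.sub_apply, Rdef, Module.algebraMap_end_apply,
          smul_def, sub_eq_zero] at hz
        exact hz
      by_contra hw0
      exact hcon μ (fun h => hα (by rw [h]; exact Finset.mem_insert_self _ _)) w hw0 h2
  obtain ⟨z, hzne⟩ := h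
  have h3 : (X ^ Fintype.card F - X : F[X]) = (∏ μ ∈ Finset.univ.erase α, (X - C μ)) * (X - C α) := by
    rw [hprod, ← Finset.mul_prod_erase Finset.univ _ (Finset.mem_univ α), mul_comm]
  have h4 := hz z
  rw [h3, map_mul, Module.End.mul_apply] at h4
  have h5 := hS _ (Finset.notMem_erase α _) _ h4
  rw [map_sub, aeval_X, aeval_C, LinearMap.sub_apply, Rdef, Module.algebraMap_end_apply,
    smul_def, sub_eq_zero] at h5
  exact hzne h5

/-- A ring of prime characteristic in which every nonzero element has finite order is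
commutative. -/
theorem comm_of_torsion {E : Type*} [Ring E] [Nontrivial E] (p : ℕ) [Fact p.Prime] [CharP E p]
    (h : ∀ x : E, x ≠ 0 → ∃ n, 0 < n ∧ x ^ n = 1) (a b : E) : a * b = b * a := by
  classical
  have hnz : NoZeroDivisors E := ⟨by
    intro x y hxy
    by_contra hcon
    push Not at hcon
    obtain ⟨n, hn, hx⟩ := h x hcon.1
    obtain ⟨k, rfl⟩ : ∃ k, n = k + 1 := ⟨n - 1, by omega⟩
    refine hcon.2 ?_
    calc y = x ^ (k + 1) * y := by rw [hx, one_mul]
      _ = x ^ k * (x * y) := by rw [pow_succ, mul_assoc]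
      _ = 0 := by rw [hxy, mul_zero]⟩
  have hdom : IsDomain E := NoZeroDivisors.to_isDomain E
  let _ : Algebra (ZMod p) E := ZMod.algebra E p
  have hint : ∀ x : E, IsIntegral (ZMod p) x := by
    intro x
    by_cases hx : x = 0
    · rw [hx]; exact isIntegral_zero
    · obtain ⟨n, hn, hx⟩ := h x hx
      refine ⟨X ^ n - 1, monic_X_pow_sub_C (1 : ZMod p) hn.ne', ?_⟩
      rw [← aeval_def]
      simp [hx]
  by_contra hab
  -- the finite field generated by `a`
  let F := Algebra.adjoin (ZMod p) {a}
  let _ : CommRing F := Algebra.adjoinCommRingOfComm (ZMod p) (by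
    rintro x hx y hy
    rw [Set.mem_singleton_iff.1 hx, Set.mem_singleton_iff.1 hy])
  have hFfin : Module.Finite (ZMod p) F := Module.Finite.iff_fg.2 (hint a).fg_adjoin_singleton
  have hFfinite : Finite F := Module.finite_of_finite (ZMod p)
  let _ : Field F := (Finite.isDomain_to_isField F).toField
  obtain ⟨μ, hμ, z, hz0, hz⟩ := exists_eigen (F := F) (E := E) F.val.toRingHom
    ⟨a, Algebra.self_mem_adjoin_singleton _ a⟩ ⟨b, fun h => hab h.symm⟩
  change z * a = (μ : E) * z at hz
  -- `z F ⊆ F z`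
  have hzF : ∀ f ∈ F, ∃ g ∈ F, z * f = g * z := by
    intro f hf
    induction hf using Algebra.adjoin_induction with
    | mem x hx =>
      rw [Set.mem_singleton_iff.1 hx]
      exact ⟨μ, μ.2, hz⟩
    | algebraMap r => exact ⟨_, Subalgebra.algebraMap_mem _ r, (Algebra.commutes r z).symm⟩
    | add x y _ _ hx hy =>
      obtain ⟨g, hg, hx⟩ := hx
      obtain ⟨g', hg', hy⟩ := hy
      exact ⟨g + g', Subalgebra.add_mem _ hg hg', by rw [mul_add, hx, hy, add_mul]⟩
    | mul x y _ _ hx hy =>
      obtain ⟨g, hg, hx⟩ := hx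
      obtain ⟨g', hg', hy⟩ := hy
      exact ⟨g * g', Subalgebra.mul_mem _ hg hg', by
        rw [← mul_assoc, hx, mul_assoc, hy, mul_assoc]⟩
  have hzF' : ∀ (n : ℕ), ∀ f ∈ F, ∃ g ∈ F, z ^ n * f = g * z ^ n := by
    intro n
    induction n with
    | zero => intro f hf; exact ⟨f, hf, by simp⟩
    | succ n ih =>
      intro f hf
      obtain ⟨g, hg, h1⟩ := ih f hf
      obtain ⟨g', hg', h2⟩ := hzF g hg
      exact ⟨g', hg', by rw [pow_succ', mul_assoc, h1, ← mul_assoc, h2, mul_assoc]⟩
  let Z := Algebra.adjoin (ZMod p) {z}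
  let P : Submodule (ZMod p) E := F.toSubmodule * Z.toSubmodule
  have hZF : Z.toSubmodule * F.toSubmodule ≤ P := by
    rw [Submodule.mul_le]
    intro w hw f hf
    obtain ⟨q, rfl⟩ : ∃ q : (ZMod p)[X], aeval z q = w := by
      have hw' : w ∈ Algebra.adjoin (ZMod p) {z} := hw
      rw [Algebra.adjoin_singleton_eq_range_aeval] at hw'
      exact hw'
    clear hw
    induction q using Polynomial.induction_on' with
    | add q r hq hr =>
      rw [map_add, add_mul]
      exact Submodule.add_mem _ hq hr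
    | monomial n c =>
      obtain ⟨g, hg, h1⟩ := hzF' n f hf
      rw [aeval_monomial, ← Algebra.smul_def, smul_mul_assoc, h1]
      exact Submodule.smul_mem _ _ (Submodule.mul_mem_mul hg
        (Subalgebra.pow_mem _ (Algebra.self_mem_adjoin_singleton _ z) n))
  let P' : Subalgebra (ZMod p) E := P.toSubalgebra
    (by
      have := Submodule.mul_mem_mul (M := F.toSubmodule) (N := Z.toSubmodule)
        (Subalgebra.one_mem F) (Subalgebra.one_mem Z)
      rwa [mul_one] at this)
    (by
      intro x y hx hy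
      have h1 : P * P ≤ P := by
        calc P * P = F.toSubmodule * (Z.toSubmodule * F.toSubmodule) * Z.toSubmodule := by
              simp only [P, mul_assoc]
          _ ≤ F.toSubmodule * P * Z.toSubmodule :=
              mul_le_mul' (mul_le_mul' le_rfl hZF) le_rfl
          _ = (F.toSubmodule * F.toSubmodule) * (Z.toSubmodule * Z.toSubmodule) := by
              simp only [P, mul_assoc]
          _ = P := by rw [(Subalgebra.isIdempotentElem_toSubmodule F).eq,
                (Subalgebra.isIdempotentElem_toSubmodule Z).eq]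
      exact h1 (Submodule.mul_mem_mul hx hy))
  have hPfg : P.FG := (hint a).fg_adjoin_singleton.mul (hint z).fg_adjoin_singleton
  have hPfin : Module.Finite (ZMod p) P' := Module.Finite.iff_fg.2 hPfg
  have hPfinite : Finite P' := Module.finite_of_finite (ZMod p)
  have hcomm := (Finite.isDomain_to_isField P').mul_comm
  have haP : a ∈ P' := by
    have := Submodule.mul_mem_mul (M := F.toSubmodule) (N := Z.toSubmodule)
      (Algebra.self_mem_adjoin_singleton (ZMod p) a) (Subalgebra.one_mem Z)
    rwa [mul_one] at this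
  have hzP : z ∈ P' := by
    have := Submodule.mul_mem_mul (M := F.toSubmodule) (N := Z.toSubmodule)
      (Subalgebra.one_mem F) (Algebra.self_mem_adjoin_singleton (ZMod p) z)
    rwa [one_mul] at this
  have h1 : z * a = a * z := congrArg Subtype.val (hcomm ⟨z, hzP⟩ ⟨a, haP⟩)
  rw [h1] at hz
  exact hμ (Subtype.ext (mul_right_cancel₀ hz0 hz).symm)

end Pool.Agent.Lib.MP_5dc4fa_al.Alg
end

section

/-!
Every finite subset of a field lies in the image of a noetherian local ring with finite residue
field.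
-/

namespace Pool.Agent.Lib.MP_5dc4fa_al.Alg

open IsLocalRing

theorem isJacobsonRing_int : IsJacobsonRing ℤ := by
  rw [isJacobsonRing_iff_prime_eq]
  intro P hP
  by_cases h : P = ⊥
  · rw [h, eq_bot_iff]
    intro x hx
    rw [Ideal.mem_jacobson_bot] at hx
    have h1 := hx x
    rw [Int.isUnit_iff] at h1
    rw [Ideal.mem_bot]
    rcases h1 with h1 | h1
    · nlinarith [sq_nonneg x]
    · nlinarith [sq_nonneg x]
  · have : P.IsMaximal := hP.isMaximal h
    exact Ideal.jacobson_eq_self_of_isMaximal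

/-- A field which is finitely generated as a ring is finite. -/
theorem finite_of_finiteType (S : Type*) [Field S] [Algebra.FiniteType ℤ S] : Finite S := by
  have := isJacobsonRing_int
  have hfin : Module.Finite ℤ S := finite_of_finite_type_of_isJacobsonRing ℤ S
  obtain ⟨p, hp⟩ := CharP.exists S
  rcases CharP.char_is_prime_or_zero S p with hpp | rfl
  · have : Fact p.Prime := ⟨hpp⟩
    let _ : Algebra (ZMod p) S := ZMod.algebra S p
    have : Module.Finite (ZMod p) S := Module.Finite.of_restrictScalars_finite ℤ (ZMod p) S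
    exact Module.finite_of_finite (ZMod p)
  · exfalso
    have : CharZero S := CharP.charP_to_charZero S
    have h1 : Function.Injective (algebraMap ℤ S) := Int.cast_injective
    exact Int.not_isField (isField_of_isIntegral_of_isField h1 (Field.toIsField S))

universe u

theorem exists_local (K : Type u) [Field K] (s : Finset K) :
    ∃ (O : Type u) (_ : CommRing O) (_ : IsNoetherianRing O) (_ : IsLocalRing O)
      (_ : Finite (ResidueField O)) (φ : O →+* K), ∀ x ∈ s, ∃ o, φ o = x := by
  let R := Algebra.adjoin ℤ (s : Set K)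
  have hft : Algebra.FiniteType ℤ R :=
    (Subalgebra.fg_iff_finiteType R).1 (Subalgebra.fg_adjoin_finset s)
  have hno : IsNoetherianRing R := Algebra.FiniteType.isNoetherianRing ℤ R
  obtain ⟨n, hn⟩ := Ideal.exists_maximal R
  have hnp : n.IsPrime := hn.isPrime
  let O := Localization.AtPrime n
  have hO : IsNoetherianRing O := IsLocalization.isNoetherianRing n.primeCompl O hno
  have hfin : Finite (ResidueField O) := by
    let _ : Field (R ⧸ n) := Ideal.Quotient.field n
    have h0 : @Algebra.FiniteType ℤ (R ⧸ n) _ _ (Ring.toIntAlgebra _) :=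
      Algebra.FiniteType.of_surjective ((Ideal.Quotient.mk n).toIntAlgHom)
        Ideal.Quotient.mk_surjective
    have h1 : Finite (R ⧸ n) := finite_of_finiteType (R ⧸ n)
    exact Finite.of_equiv _ (IsLocalization.AtPrime.equivQuotMaximalIdeal n O).toEquiv
  have hu : ∀ y : n.primeCompl, IsUnit (algebraMap R K y) := by
    intro y
    rw [isUnit_iff_ne_zero]
    intro h
    refine y.2 ?_
    have : (y : R) = 0 := Subtype.ext h
    rw [this]
    exact n.zero_mem
  refine ⟨O, inferInstance, hO, inferInstance, hfin, IsLocalization.lift hu, fun x hx => ?_⟩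
  refine ⟨algebraMap R O ⟨x, Algebra.subset_adjoin hx⟩, ?_⟩
  rw [IsLocalization.lift_eq]
  rfl

end Pool.Agent.Lib.MP_5dc4fa_al.Alg
end
end

section

section

/-!
Idempotents from algebraic elements; additivity of nilpotents.
-/

namespace Pool.Agent.Lib.MP_5dc4fa_al.Alg

open Polynomial

theorem exists_idem {K U : Type*} [Field K] [Ring U] [Algebra K U] {w : U} (hw : IsIntegral K w) :
    ∃ (q : K[X]) (m : ℕ), (w * aeval w q) * (w * aeval w q) = w * aeval w q ∧
      w ^ m * (w * aeval w q) = w ^ m := by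
  obtain ⟨p, hp, hpw⟩ := hw
  have hpw : aeval w p = 0 := hpw
  obtain ⟨g, hg, hng⟩ := exists_eq_pow_rootMultiplicity_mul_and_not_dvd p hp.ne_zero 0
  set k := rootMultiplicity 0 p with hk
  rw [C_0, sub_zero] at hg hng
  have hcop : IsCoprime (X ^ (k + 1)) g :=
    ((Polynomial.prime_X.coprime_iff_not_dvd).2 hng).pow_left
  obtain ⟨u, v, huv⟩ := hcop
  have e1 : w * aeval w (X ^ k * u) = aeval w (u * X ^ (k + 1)) := by
    have : u * X ^ (k + 1) = X * (X ^ k * u) := by ring
    rw [this, map_mul (aeval w) X, aeval_X]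
  refine ⟨X ^ k * u, k, ?_, ?_⟩
  · rw [e1, ← map_mul, ← sub_eq_zero, ← map_sub]
    have : (u * X ^ (k + 1)) * (u * X ^ (k + 1)) - u * X ^ (k + 1) = -(u * X * v) * p := by
      have h1 : u * X ^ (k + 1) = 1 - v * g := by rw [← huv]; ring
      calc (u * X ^ (k + 1)) * (u * X ^ (k + 1)) - u * X ^ (k + 1)
          = (u * X ^ (k + 1)) * (u * X ^ (k + 1) - 1) := by ring
        _ = (u * X ^ (k + 1)) * (- (v * g)) := by rw [h1]; ring
        _ = -(u * X * v) * (X ^ k * g) := by ring
        _ = -(u * X * v) * p := by rw [← hg]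
    rw [this, map_mul, hpw, mul_zero]
  · rw [e1]
    have h2 : w ^ k = aeval w (X ^ k : K[X]) := by simp
    rw [h2, ← map_mul, ← sub_eq_zero, ← map_sub]
    have : X ^ k * (u * X ^ (k + 1)) - X ^ k = -v * p := by
      have h1 : u * X ^ (k + 1) = 1 - v * g := by rw [← huv]; ring
      calc X ^ k * (u * X ^ (k + 1)) - X ^ k = -v * (X ^ k * g) := by rw [h1]; ring
        _ = -v * p := by rw [← hg]
    rw [this, map_mul, hpw, mul_zero]

variable {U : Type*} [Ring U]

/-- Condition (P) for the elements of a (two-sided) ideal. -/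
def PPOn (I : Ideal U) : Prop :=
  ∀ x ∈ I, ∀ y ∈ I, ∃ n : ℕ, 2 ≤ n ∧ (x * y) ^ n = x ^ n * y ^ n

theorem PPOn.large {I : Ideal U} (h : PPOn I) (B : ℕ) {x y : U} (hx : x ∈ I) (hy : y ∈ I) :
    ∃ n : ℕ, B < n ∧ (x * y) ^ n = x ^ n * y ^ n := by
  have hpow : ∀ z ∈ I, ∀ n, 0 < n → z ^ n ∈ I := by
    intro z hz n hn
    obtain ⟨k, rfl⟩ : ∃ k, n = k + 1 := ⟨n - 1, by omega⟩
    rw [pow_succ]
    exact I.mul_mem_left _ hz
  induction B with
  | zero =>
    obtain ⟨n, hn, e⟩ := h x hx y hy
    exact ⟨n, by omega, e⟩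
  | succ B ih =>
    obtain ⟨n, hn, e⟩ := ih
    obtain ⟨m, hm, e'⟩ := h (x ^ n) (hpow x hx n (by omega)) (y ^ n) (hpow y hy n (by omega))
    refine ⟨n * m, ?_, ?_⟩
    · nlinarith
    · rw [pow_mul, e, e', pow_mul, pow_mul]

theorem PPOn.nilpotent_mul {I : Ideal U} (h : PPOn I) {x y : U} (hx : x ∈ I) (hy : y ∈ I)
    (hn : IsNilpotent x) : IsNilpotent (x * y) := by
  obtain ⟨k, hk⟩ := hn
  obtain ⟨n, hn, e⟩ := h.large k hx hy
  exact ⟨n, by rw [e, pow_eq_zero_of_le hn.le hk, zero_mul]⟩

theorem PPOn.mul_nilpotent {I : Ideal U} (h : PPOn I) {x y : U} (hx : x ∈ I) (hy : y ∈ I)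
    (hn : IsNilpotent x) : IsNilpotent (y * x) := by
  obtain ⟨k, hk⟩ := hn
  obtain ⟨n, hn, e⟩ := h.large k hy hx
  exact ⟨n, by rw [e, pow_eq_zero_of_le hn.le hk, mul_zero]⟩

/-- If `x`, `y` are nilpotent elements of `I` and `x + y` is integral over a field, then `x + y` is
nilpotent. -/
theorem PPOn.nilpotent_add {K : Type*} [Field K] [Algebra K U] {I : Ideal U} [I.IsTwoSided]
    (h : PPOn I) {x y : U} (hx : x ∈ I) (hy : y ∈ I) (hnx : IsNilpotent x) (hny : IsNilpotent y)
    (hint : IsIntegral K (x + y)) : IsNilpotent (x + y) := by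
  obtain ⟨q, m, h1, h2⟩ := exists_idem hint
  set w := x + y with hw
  set e := w * aeval w q with he
  have hwI : w ∈ I := I.add_mem hx hy
  have heI : e ∈ I := I.mul_mem_right _ hwI
  set t := aeval w q * e with ht
  have htI : t ∈ I := I.mul_mem_left _ heI
  have e1 : e = e * (x * t) + e * (y * t) := by
    calc e = e * e * e := by rw [h1, h1]
      _ = e * (w * aeval w q) * e := by rw [← he]
      _ = e * (x * t) + e * (y * t) := by
        rw [ht, hw]
        noncomm_ring
  have hXn : IsNilpotent (e * (x * t)) :=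
    h.mul_nilpotent (I.mul_mem_left _ htI) heI (h.nilpotent_mul hx htI hnx)
  have hYn : IsNilpotent (e * (y * t)) :=
    h.mul_nilpotent (I.mul_mem_left _ htI) heI (h.nilpotent_mul hy htI hny)
  set X := e * (x * t) with hX
  set Y := e * (y * t) with hY
  have hte : t * e = t := by rw [ht, mul_assoc, h1]
  have heY : e * Y = Y := by rw [hY, ← mul_assoc, h1]
  have hYe : Y * e = Y := by rw [hY, mul_assoc e, mul_assoc y, hte]
  have hcomm : Commute X Y := by
    have hXe : X = e - Y := by rw [e1]; simp [hX, hY]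
    change X * Y = Y * X
    rw [hXe, sub_mul, mul_sub, heY, hYe]
  have hen : IsNilpotent e := by
    rw [e1]
    exact hcomm.isNilpotent_add hXn hYn
  have he0 : e = 0 := by
    obtain ⟨k, hk⟩ := hen
    have : ∀ k : ℕ, e ^ (k + 1) = e := by
      intro k
      induction k with
      | zero => simp
      | succ k ih => rw [pow_succ, ih, h1]
    rcases k with _ | k
    · rw [pow_zero] at hk
      rw [← mul_one e, hk, mul_zero]
    · rw [← this k, hk]
  refine ⟨m, ?_⟩
  rw [← h2, he0, mul_zero]

end Pool.Agent.Lib.MP_5dc4fa_al.Alg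
end

section

/-!
In a unital ring with (P) every maximal left ideal is two-sided.
-/

namespace Pool.Agent.Lib.MP_5dc4fa_al.Alg

theorem PP.isTwoSided {A : Type*} [Ring A] (hP : PP A) (M : Ideal A) (hM : M.IsMaximal) :
    M.IsTwoSided := by
  constructor
  intro m r hm
  by_contra hr
  -- `x * r ≡ 1`
  obtain ⟨s, hs⟩ : ∃ s : A, s * (m * r) - 1 ∈ M := by
    have h1 : (1 : A) ∈ M ⊔ Ideal.span {m * r} := by
      rw [hM.1.2 _ (lt_of_le_of_ne le_sup_left fun h => hr (by
        rw [h]; exact Ideal.mem_sup_right (Ideal.subset_span rfl)))]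
      trivial
    obtain ⟨a, ha, b, hb, hab⟩ := Submodule.mem_sup.1 h1
    obtain ⟨s, rfl⟩ := Ideal.mem_span_singleton'.1 hb
    refine ⟨s, ?_⟩
    rw [← hab]
    simpa using M.neg_mem ha
  set x := s * m with hx
  have hxM : x ∈ M := M.mul_mem_left s hm
  have hxr : x * r - 1 ∈ M := by rw [hx, mul_assoc]; exact hs
  set y := r - r * r * x with hy
  have hxy : x * y - 1 ∈ M := by
    have : x * y - 1 = (x * r - 1) - (x * r * r) * x := by rw [hy]; noncomm_ring
    rw [this]
    exact M.sub_mem hxr (M.mul_mem_left _ hxM)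
  have hyr : y * r ∈ M := by
    have : y * r = - (r * r * (x * r - 1)) := by rw [hy]; noncomm_ring
    rw [this]
    exact M.neg_mem (M.mul_mem_left _ hxr)
  have hyy : y * y ∈ M := by
    have : y * y = y * r - (y * r * r) * x := by rw [hy]; noncomm_ring
    rw [this]
    exact M.sub_mem hyr (M.mul_mem_left _ hxM)
  have hpow : ∀ n : ℕ, (x * y) ^ n - 1 ∈ M := by
    intro n
    induction n with
    | zero => simp
    | succ n ih =>
      have : (x * y) ^ (n + 1) - 1 = (x * y) ^ n * (x * y - 1) + ((x * y) ^ n - 1) := by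
        rw [pow_succ]; noncomm_ring
      rw [this]
      exact M.add_mem (M.mul_mem_left _ hxy) ih
  obtain ⟨n, hn, e⟩ := hP x y
  have h2 : (x * y) ^ n ∈ M := by
    obtain ⟨k, rfl⟩ : ∃ k, n = k + 2 := ⟨n - 2, by omega⟩
    rw [e, pow_add y k 2, pow_two, ← mul_assoc]
    exact M.mul_mem_left _ hyy
  have h1 : (1 : A) ∈ M := by
    have := M.sub_mem h2 (hpow n)
    simpa using this
  exact hM.ne_top ((Ideal.eq_top_iff_one M).2 h1)

end Pool.Agent.Lib.MP_5dc4fa_al.Alg
end

section

/-!
Integral elements over a noetherian local ring in a ring with (P): `1 + ∑ m_j d_j` is a unit.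
-/

namespace Pool.Agent.Lib.MP_5dc4fa_al.Alg

set_option linter.unusedSectionVars false

open Polynomial IsLocalRing

variable {O A : Type*} [CommRing O] [IsNoetherianRing O] [Ring A] [Algebra O A]

theorem isIntegral_aeval {x : A} (hx : IsIntegral O x) (p : O[X]) : IsIntegral O (aeval x p) := by
  refine isIntegral_of_large _ hx.fg_adjoin_singleton _ fun B => ⟨B + 1, by omega, ?_⟩
  exact Subalgebra.pow_mem _ (aeval_mem_adjoin_singleton O x) _

/-- A unit which is integral together with its inverse. -/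
def Good (O : Type*) {A : Type*} [CommRing O] [Ring A] [Algebra O A] (u : A) : Prop :=
  IsIntegral O u ∧ ∃ v, IsIntegral O v ∧ u * v = 1 ∧ v * u = 1

theorem Good.one : Good O (1 : A) :=
  ⟨isIntegral_one, 1, isIntegral_one, by simp, by simp⟩

theorem Good.isUnit {u : A} (h : Good O u) : IsUnit u := by
  obtain ⟨_, v, _, h1, h2⟩ := h
  exact ⟨⟨u, v, h1, h2⟩, rfl⟩

theorem Good.mul (hP : PP A) {u v : A} (hu : Good O u) (hv : Good O v) : Good O (u * v) := by
  obtain ⟨h1, u', h2, h3, h4⟩ := hu
  obtain ⟨k1, v', k2, k3, k4⟩ := hv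
  refine ⟨hP.isIntegral_mul h1 k1, v' * u', hP.isIntegral_mul k2 h2, ?_, ?_⟩
  · rw [mul_assoc, ← mul_assoc v, k3, one_mul, h3]
  · rw [mul_assoc, ← mul_assoc u', h4, one_mul, k4]

theorem isUnit_one_add_root [IsLocalRing O] {f : O[X]} (hf : f.Monic) {m : O}
    (hm : m ∈ maximalIdeal O) :
    IsUnit (1 + algebraMap O (AdjoinRoot f) m * AdjoinRoot.root f) := by
  have := hf.finite_adjoinRoot
  by_contra hu
  obtain ⟨I, hI, hmem⟩ := exists_max_ideal_of_mem_nonunits hu
  have := Ideal.isMaximal_comap_of_isIntegral_of_isMaximal (R := O) I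
  have h1 : I.comap (algebraMap O (AdjoinRoot f)) = maximalIdeal O := eq_maximalIdeal this
  have h2 : algebraMap O (AdjoinRoot f) m ∈ I := by
    rw [← Ideal.mem_comap, h1]; exact hm
  have h3 : (1 : AdjoinRoot f) ∈ I := by
    have := I.sub_mem hmem (I.mul_mem_right (AdjoinRoot.root f) h2)
    simpa using this
  exact hI.ne_top ((Ideal.eq_top_iff_one I).2 h3)

theorem good_one_add [IsLocalRing O] {x : A} (hx : IsIntegral O x) {m : O}
    (hm : m ∈ maximalIdeal O) : Good O (1 + m • x) := by
  obtain ⟨f, hf, hfx⟩ := hx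
  have hfx' : aeval x f = 0 := hfx
  have hx : IsIntegral O x := ⟨f, hf, hfx⟩
  obtain ⟨⟨a, b, hab, hba⟩, ha⟩ := isUnit_one_add_root hf hm
  obtain ⟨q, rfl⟩ := AdjoinRoot.mk_surjective b
  have ha' : AdjoinRoot.mk f (1 + C m * X) = a := by
    have ha2 : a = 1 + algebraMap O (AdjoinRoot f) m * AdjoinRoot.root f := ha
    rw [ha2, map_add, map_one, map_mul, AdjoinRoot.mk_X]
    rfl
  have h1 : AdjoinRoot.mk f ((1 + C m * X) * q - 1) = 0 := by
    rw [map_sub, map_mul, ha', map_one, hab, sub_self]
  rw [AdjoinRoot.mk_eq_zero] at h1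
  obtain ⟨g, hg⟩ := h1
  have h2 : aeval x ((1 + C m * X) * q) = 1 := by
    have := congrArg (aeval x) hg
    rw [map_mul (aeval x) f g, hfx', zero_mul, map_sub, map_one, sub_eq_zero] at this
    exact this
  have h3 : aeval x (1 + C m * X) = 1 + m • x := by
    simp [Algebra.smul_def]
  refine ⟨by rw [← h3]; exact isIntegral_aeval hx _, aeval x q, isIntegral_aeval hx _, ?_, ?_⟩
  · rw [← h3, ← map_mul, h2]
  · rw [← h3, ← map_mul, mul_comm, h2]

/-- The additive submonoid generated by the `m • d`, `m` in the maximal ideal, `d` integral. -/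
def mSpan (O A : Type*) [CommRing O] [IsLocalRing O] [Ring A] [Algebra O A] : AddSubmonoid A :=
  AddSubmonoid.closure {s | ∃ m ∈ maximalIdeal O, ∃ d : A, IsIntegral O d ∧ s = m • d}

theorem good_add [IsLocalRing O] (hP : PP A) {s : A} (hs : s ∈ mSpan O A) :
    ∀ u : A, Good O u → Good O (u + s) := by
  induction hs using AddSubmonoid.closure_induction with
  | mem s hs =>
    obtain ⟨m, hm, d, hd, rfl⟩ := hs
    intro u hu
    obtain ⟨h1, v, hv, h2, h3⟩ := hu
    have : u + m • d = u * (1 + m • (v * d)) := by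
      rw [mul_add, mul_one, mul_smul_comm, ← mul_assoc, h2, one_mul]
    rw [this]
    exact Good.mul hP ⟨h1, v, hv, h2, h3⟩ (good_one_add (hP.isIntegral_mul hv hd) hm)
  | zero => intro u hu; simpa using hu
  | add s t _ _ hs ht => intro u hu; rw [← add_assoc]; exact ht _ (hs _ hu)

/-- `1` does not lie in the `m`-span of the integral elements. -/
theorem one_notMem_mSpan [IsLocalRing O] [Nontrivial A] (hP : PP A) : (1 : A) ∉ mSpan O A := by
  intro h
  have h1 := good_add hP h (-1) ⟨isIntegral_one.neg, -1, isIntegral_one.neg, by simp, by simp⟩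
  rw [neg_add_cancel] at h1
  exact not_isUnit_zero h1.isUnit

end Pool.Agent.Lib.MP_5dc4fa_al.Alg
end

section

/-!
Passing from an algebra over a noetherian ring to an algebra over a field, keeping a given element
non-nilpotent.
-/

namespace Pool.Agent.Lib.MP_5dc4fa_al.Alg

open Polynomial nonZeroDivisors

theorem exists_prime {C : Type*} [CommRing C] [IsNoetherianRing C] {a : Ideal C} (ha : a ≠ ⊤) :
    ∃ t ∉ a, ∃ p : Ideal C, p.IsPrime ∧ ∀ c, c ∈ p ↔ c * t ∈ a := by
  have h1 : (Ideal.Quotient.mk a 1) ≠ 0 := by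
    rw [Ne, Ideal.Quotient.eq_zero_iff_mem]
    exact fun h => ha ((Ideal.eq_top_iff_one a).2 h)
  obtain ⟨P, hP, _⟩ := exists_le_isAssociatedPrime_of_isNoetherianRing C _ h1
  rw [isAssociatedPrime_iff] at hP
  obtain ⟨hP, x, hx⟩ := hP
  obtain ⟨t, rfl⟩ := Ideal.Quotient.mk_surjective x
  have key : ∀ c, c ∈ P ↔ c * t ∈ a := by
    intro c
    rw [hx, Submodule.mem_colon_singleton, Submodule.mem_bot, ← Ideal.Quotient.eq_zero_iff_mem,
      map_mul]
    rfl
  refine ⟨t, fun ht => hP.ne_top ((Ideal.eq_top_iff_one P).2 ((key 1).2 (by rwa [one_mul]))), P, hP,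
    key⟩

universe u v

/-- The localization of an algebra without torsion conditions over a domain: a fiber. -/
theorem exists_generic {D : Type u} {V : Type v} [CommRing D] [IsDomain D] [Ring V] [Algebra D V]
    (I : Ideal V) [I.IsTwoSided] (w : V) (hw : ∀ s : D, s ≠ 0 → ∀ n : ℕ, s • w ^ n ≠ 0) :
    ∃ (K : Type u) (_ : Field K) (U' : Type (max u v)) (_ : Ring U') (_ : Algebra K U') (φ : D →+* K)
      (f : V →+* U') (I' : Ideal U') (_ : I'.IsTwoSided),
      (∀ c, f (algebraMap D V c) = algebraMap K U' (φ c)) ∧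
      (∀ u', ∃ (κ : K) (u : V), u' = algebraMap K U' κ * f u) ∧
      (∀ x ∈ I, f x ∈ I') ∧
      (∀ x' ∈ I', ∃ (κ : K), ∃ x ∈ I, x' = algebraMap K U' κ * f x) ∧
      ¬ IsNilpotent (f w) := by
  let K := FractionRing D
  let U' := LocalizedModule D⁰ V
  let _ : Algebra K U' := LocalizedModule.algebraOfIsLocalization K
  let f : V →+* U' := LocalizedModule.numeratorRingHom
  have hf : ∀ x, f x = LocalizedModule.mk x 1 := fun _ => rfl
  have hmk : ∀ (x : V) (s : D⁰), (LocalizedModule.mk x s : U') =
      algebraMap K U' (Localization.mk 1 s) * f x := by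
    intro x s
    rw [LocalizedModule.algebraMap_mk, hf, LocalizedModule.mk_mul_mk, map_one, one_mul, mul_one]
  let I' : Ideal U' :=
    { carrier := {z | ∃ x ∈ I, ∃ s : D⁰, z = LocalizedModule.mk x s}
      add_mem' := by
        rintro _ _ ⟨x, hx, s, rfl⟩ ⟨y, hy, t, rfl⟩
        refine ⟨t • x + s • y, ?_, s * t, ?_⟩
        · rw [Submonoid.smul_def, Submonoid.smul_def, Algebra.smul_def, Algebra.smul_def]
          exact I.add_mem (I.mul_mem_left _ hx) (I.mul_mem_left _ hy)
        · rw [LocalizedModule.mk_add_mk]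
      zero_mem' := ⟨0, I.zero_mem, 1, by rw [LocalizedModule.zero_mk]⟩
      smul_mem' := by
        rintro c _ ⟨x, hx, s, rfl⟩
        induction c using LocalizedModule.induction_on with
        | _ m t =>
          refine ⟨m * x, I.mul_mem_left _ hx, t * s, ?_⟩
          rw [smul_eq_mul, LocalizedModule.mk_mul_mk] }
  have hI' : I'.IsTwoSided := ⟨by
    rintro _ c ⟨x, hx, s, rfl⟩
    induction c using LocalizedModule.induction_on with
    | _ m t =>
      refine ⟨x * m, I.mul_mem_right _ hx, s * t, ?_⟩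
      rw [LocalizedModule.mk_mul_mk]⟩
  refine ⟨K, inferInstance, U', inferInstance, inferInstance, algebraMap D K, f, I', hI', ?_, ?_, ?_,
    ?_, ?_⟩
  · intro c
    have : algebraMap D K c = Localization.mk c 1 := rfl
    rw [this, LocalizedModule.algebraMap_mk, hf]
  · intro u'
    induction u' using LocalizedModule.induction_on with
    | _ m t => exact ⟨_, m, hmk m t⟩
  · intro x hx
    exact ⟨x, hx, 1, rfl⟩
  · rintro _ ⟨x, hx, s, rfl⟩
    exact ⟨_, x, hx, hmk x s⟩
  · rintro ⟨n, hn⟩
    rw [← map_pow, hf, ← LocalizedModule.zero_mk (1 : D⁰), LocalizedModule.mk_eq] at hn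
    obtain ⟨u, hu⟩ := hn
    rw [one_smul, one_smul, smul_zero] at hu
    exact hw u (nonZeroDivisors.ne_zero u.2) n hu

theorem exists_fiber {C : Type u} {U : Type v} [CommRing C] [IsNoetherianRing C] [Ring U]
    [Algebra C U] (I : Ideal U) [I.IsTwoSided] (w : U) (hw : ¬ IsNilpotent w) :
    ∃ (K : Type u) (_ : Field K) (U' : Type (max u v)) (_ : Ring U') (_ : Algebra K U') (φ : C →+* K)
      (f : U →+* U') (I' : Ideal U') (_ : I'.IsTwoSided),
      (∀ c, f (algebraMap C U c) = algebraMap K U' (φ c)) ∧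
      (∀ u', ∃ (κ : K) (u : U), u' = algebraMap K U' κ * f u) ∧
      (∀ x ∈ I, f x ∈ I') ∧
      (∀ x' ∈ I', ∃ (κ : K), ∃ x ∈ I, x' = algebraMap K U' κ * f x) ∧
      ¬ IsNilpotent (f w) := by
  let a : Ideal C :=
    { carrier := {c | ∃ n : ℕ, c • w ^ n = 0}
      add_mem' := by
        rintro c d ⟨n, hn⟩ ⟨m, hm⟩
        refine ⟨n + m, ?_⟩
        rw [add_smul, pow_add, ← smul_mul_assoc, hn, zero_mul, zero_add, ← pow_add, add_comm n m,
          pow_add, ← smul_mul_assoc, hm, zero_mul]
      zero_mem' := ⟨0, by rw [zero_smul]⟩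
      smul_mem' := by
        rintro c d ⟨n, hn⟩
        exact ⟨n, by rw [smul_eq_mul, mul_smul, hn, smul_zero]⟩ }
  have ha : a ≠ ⊤ := by
    intro h
    obtain ⟨n, hn⟩ := (Ideal.eq_top_iff_one a).1 h
    exact hw ⟨n, by rwa [one_smul] at hn⟩
  obtain ⟨t, ht, p, hp, hpt⟩ := exists_prime ha
  -- the ideal `pU`
  let J : Ideal U :=
    { carrier := {z | z ∈ p • (⊤ : Submodule C U)}
      add_mem' := fun hx hy => Submodule.add_mem (p • (⊤ : Submodule C U)) hx hy
      zero_mem' := Submodule.zero_mem (p • (⊤ : Submodule C U))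
      smul_mem' := by
        intro c x hx
        change c * x ∈ p • (⊤ : Submodule C U)
        change x ∈ p • (⊤ : Submodule C U) at hx
        induction hx using Submodule.smul_induction_on' with
        | smul r hr n hn =>
          rw [mul_smul_comm]
          exact Submodule.smul_mem_smul hr trivial
        | add x _ y _ hx hy => rw [mul_add]; exact Submodule.add_mem _ hx hy }
  have hJ : J.IsTwoSided := ⟨by
    intro x c hx
    change x * c ∈ p • (⊤ : Submodule C U)
    change x ∈ p • (⊤ : Submodule C U) at hx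
    induction hx using Submodule.smul_induction_on' with
    | smul r hr n hn =>
      rw [smul_mul_assoc]
      exact Submodule.smul_mem_smul hr trivial
    | add x _ y _ hx hy => rw [add_mul]; exact Submodule.add_mem _ hx hy⟩
  -- elements of `J` are killed by `t` and a power of `w`
  have hJt : ∀ z ∈ J, ∃ n : ℕ, t • (z * w ^ n) = 0 := by
    intro z hz
    change z ∈ p • (⊤ : Submodule C U) at hz
    induction hz using Submodule.smul_induction_on' with
    | smul r hr u hu =>
      obtain ⟨n, hn⟩ := (hpt r).1 hr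
      refine ⟨n, ?_⟩
      rw [smul_mul_assoc, smul_smul, ← mul_smul_comm, mul_comm t r, hn, mul_zero]
    | add x _ y _ hx hy =>
      obtain ⟨n, hn⟩ := hx
      obtain ⟨m, hm⟩ := hy
      refine ⟨n + m, ?_⟩
      rw [add_mul, smul_add, pow_add, ← mul_assoc, ← smul_mul_assoc, hn, zero_mul, zero_add,
        ← pow_add, add_comm n m, pow_add, ← mul_assoc, ← smul_mul_assoc, hm, zero_mul]
  let V := U ⧸ J
  let π : U →+* V := Ideal.Quotient.mk J
  let D := C ⧸ p
  have hπ0 : ∀ z, π z = 0 ↔ z ∈ J := fun z => Ideal.Quotient.eq_zero_iff_mem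
  let ψ : D →+* V := Ideal.Quotient.lift p (π.comp (algebraMap C U)) (by
    intro c hc
    refine (hπ0 _).2 ?_
    change algebraMap C U c ∈ p • (⊤ : Submodule C U)
    rw [Algebra.algebraMap_eq_smul_one]
    exact Submodule.smul_mem_smul hc trivial)
  have hψ : ∀ c, ψ (Ideal.Quotient.mk p c) = π (algebraMap C U c) := fun c =>
    Ideal.Quotient.lift_mk _ _ _
  let _ : Algebra D V := ψ.toAlgebra' (by
    intro c x
    obtain ⟨c, rfl⟩ := Ideal.Quotient.mk_surjective c
    obtain ⟨x, rfl⟩ := Ideal.Quotient.mk_surjective x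
    rw [hψ]
    change π _ * π x = π x * π _
    rw [← map_mul, ← map_mul, Algebra.commutes])
  let I1 : Ideal V :=
    { carrier := {z | ∃ x ∈ I, π x = z}
      add_mem' := by
        rintro _ _ ⟨x, hx, rfl⟩ ⟨y, hy, rfl⟩
        exact ⟨x + y, I.add_mem hx hy, map_add _ _ _⟩
      zero_mem' := ⟨0, I.zero_mem, map_zero _⟩
      smul_mem' := by
        rintro c _ ⟨x, hx, rfl⟩
        obtain ⟨c, rfl⟩ := Ideal.Quotient.mk_surjective c
        exact ⟨c * x, I.mul_mem_left _ hx, map_mul _ _ _⟩ }
  have hI1 : I1.IsTwoSided := ⟨by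
    rintro _ c ⟨x, hx, rfl⟩
    obtain ⟨c, rfl⟩ := Ideal.Quotient.mk_surjective c
    exact ⟨x * c, I.mul_mem_right _ hx, map_mul _ _ _⟩⟩
  have hdom : IsDomain D := (Ideal.Quotient.isDomain_iff_prime p).2 hp
  obtain ⟨K, iK, U', iU, iA, φ, f, I', hI', h1, h2, h3, h4, h5⟩ := exists_generic (D := D) I1 (π w) (by
    intro s hs n hn
    obtain ⟨s, rfl⟩ := Ideal.Quotient.mk_surjective s
    have hsp : s ∉ p := fun h => hs (Ideal.Quotient.eq_zero_iff_mem.2 h)
    have h1 : π (s • w ^ n) = 0 := by
      rw [← hn, Algebra.smul_def, Algebra.smul_def, map_mul, map_pow]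
      rfl
    obtain ⟨m, hm⟩ := hJt _ ((hπ0 _).1 h1)
    refine hsp ((hpt s).2 ⟨n + m, ?_⟩)
    rw [pow_add, mul_comm s t, mul_smul, ← smul_mul_assoc]
    exact hm)
  refine ⟨K, iK, U', iU, iA, φ.comp (Ideal.Quotient.mk p), f.comp π, I', hI', ?_, ?_, ?_, ?_, h5⟩
  · intro c
    rw [RingHom.comp_apply, RingHom.comp_apply, ← h1]
    rfl
  · intro u'
    obtain ⟨κ, v, rfl⟩ := h2 u'
    obtain ⟨v, rfl⟩ : ∃ v', π v' = v := Ideal.Quotient.mk_surjective v
    exact ⟨κ, v, rfl⟩
  · intro x hx
    exact h3 _ ⟨x, hx, rfl⟩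
  · intro x' hx'
    obtain ⟨κ, _, ⟨x, hx, rfl⟩, rfl⟩ := h4 x' hx'
    exact ⟨κ, x, hx, rfl⟩

end Pool.Agent.Lib.MP_5dc4fa_al.Alg
end

section

/-!
Sums of nilpotent elements under (P), when the sum is integral over some commutative ring.
-/

namespace Pool.Agent.Lib.MP_5dc4fa_al.Alg

open Polynomial

universe u v

theorem exists_fiber_int {C : Type u} {U : Type v} [CommRing C] [Ring U] [Algebra C U]
    (I : Ideal U) [I.IsTwoSided] (w : U) (hw : ¬ IsNilpotent w) (T : Finset U)
    (hT : ∀ x ∈ T, IsIntegral C x) :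
    ∃ (K : Type u) (_ : Field K) (U' : Type (max u v)) (_ : Ring U') (_ : Algebra K U')
      (f : U →+* U') (I' : Ideal U') (_ : I'.IsTwoSided),
      (∀ u', ∃ (κ : K) (u : U), u' = algebraMap K U' κ * f u) ∧
      (∀ x ∈ I, f x ∈ I') ∧
      (∀ x' ∈ I', ∃ (κ : K), ∃ x ∈ I, x' = algebraMap K U' κ * f x) ∧
      ¬ IsNilpotent (f w) ∧ ∀ x ∈ T, IsIntegral K (f x) := by
  classical
  have hT' : ∀ x ∈ T, ∃ p : C[X], p.Monic ∧ eval₂ (algebraMap C U) x p = 0 := hT
  choose! p hp using hT'
  let C0 := Algebra.adjoin ℤ ((T.biUnion fun x => (p x).coeffs : Finset C) : Set C)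
  have hft : Algebra.FiniteType ℤ C0 :=
    (Subalgebra.fg_iff_finiteType C0).1 (Subalgebra.fg_adjoin_finset _)
  have hno : IsNoetherianRing C0 := Algebra.FiniteType.isNoetherianRing ℤ C0
  let g : C0 →+* C := C0.val.toRingHom
  let _ : Algebra C0 U := ((algebraMap C U).comp g).toAlgebra' (fun c x => Algebra.commutes _ _)
  obtain ⟨K, iK, U', iU, iA, φ, f, I', hI', h1, h2, h3, h4, h5⟩ := exists_fiber (C := C0) I w hw
  refine ⟨K, iK, U', iU, iA, f, I', hI', h2, h3, h4, h5, ?_⟩
  intro x hx
  have hl : p x ∈ lifts g := by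
    rw [lifts_iff_coeffs_subset_range]
    intro t ht
    exact ⟨⟨t, Algebra.subset_adjoin (by
      rw [SetLike.mem_coe, Finset.mem_biUnion]
      exact ⟨x, hx, ht⟩)⟩, rfl⟩
  obtain ⟨q, hq, _, hqm⟩ := lifts_and_natDegree_eq_and_monic hl (hp x hx).1
  refine ⟨q.map φ, hqm.map _, ?_⟩
  rw [eval₂_map]
  have e1 : (algebraMap K U').comp φ = f.comp ((algebraMap C U).comp g) :=
    RingHom.ext fun c => (h1 c).symm
  rw [e1, ← hom_eval₂, ← eval₂_map, hq, (hp x hx).2, map_zero]

/-- Condition (P) passes to fibers. -/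
theorem PPOn.fiber {K U U' : Type*} [Field K] [Ring U] [Ring U'] [Algebra K U'] {I : Ideal U}
    (h : PPOn I) (f : U →+* U') {I' : Ideal U'}
    (hI' : ∀ x' ∈ I', ∃ (κ : K), ∃ x ∈ I, x' = algebraMap K U' κ * f x) : PPOn I' := by
  intro x' hx' y' hy'
  obtain ⟨κ, x, hx, rfl⟩ := hI' x' hx'
  obtain ⟨l, y, hy, rfl⟩ := hI' y' hy'
  obtain ⟨n, hn, e⟩ := h x hx y hy
  refine ⟨n, hn, ?_⟩
  have c1 : ∀ (k : K) (z : U'), Commute (algebraMap K U' k) z := fun k z => Algebra.commutes k z
  have e1 : algebraMap K U' κ * f x * (algebraMap K U' l * f y) =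
      algebraMap K U' (κ * l) * f (x * y) := by
    rw [map_mul, map_mul, mul_assoc, ← mul_assoc (f x), ← (c1 l (f x)).eq]
    simp only [mul_assoc]
  rw [e1, (c1 _ _).mul_pow, (c1 _ _).mul_pow, (c1 _ _).mul_pow]
  simp only [← map_pow]
  rw [e, mul_pow, map_mul, map_mul f]
  rw [mul_assoc, mul_assoc, ← mul_assoc (f (x ^ n)) (algebraMap K U' (l ^ n)),
    ← (c1 (l ^ n) (f (x ^ n))).eq, mul_assoc]

/-- Sum of nilpotent elements, integral over a commutative ring. -/
theorem PPOn.nilpotent_add' {C U : Type*} [CommRing C] [Ring U] [Algebra C U] {I : Ideal U}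
    [I.IsTwoSided] (h : PPOn I) {x y : U} (hx : x ∈ I) (hy : y ∈ I) (hnx : IsNilpotent x)
    (hny : IsNilpotent y) (hint : IsIntegral C (x + y)) : IsNilpotent (x + y) := by
  classical
  by_contra hw
  obtain ⟨K, _, U', _, _, f, I', hI', h2, h3, h4, h5, h6⟩ :=
    exists_fiber_int (C := C) I (x + y) hw {x + y} (by
      intro z hz
      rw [Finset.mem_singleton.1 hz]
      exact hint)
  have hint' := h6 (x + y) (Finset.mem_singleton_self _)
  rw [map_add] at hint' h5
  exact h5 ((h.fiber f h4).nilpotent_add (h3 x hx) (h3 y hy) (hnx.map f) (hny.map f) hint')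

end Pool.Agent.Lib.MP_5dc4fa_al.Alg
end

section

/-!
In a nonzero algebra with (P) over a noetherian local ring with finite residue field, the
commutator of two integral elements has no integral left inverse.
-/

namespace Pool.Agent.Lib.MP_5dc4fa_al.Alg

set_option linter.unusedSectionVars false

open Polynomial IsLocalRing

theorem torsion_of_integral {k E : Type*} [Field k] [Finite k] [Ring E] [NoZeroDivisors E]
    [Algebra k E] {x : E} (hx : IsIntegral k x) (hx0 : x ≠ 0) : ∃ n, 0 < n ∧ x ^ n = 1 := by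
  have h1 : Module.Finite k (Algebra.adjoin k {x}) := Module.Finite.iff_fg.2 hx.fg_adjoin_singleton
  have h2 : Finite (Algebra.adjoin k {x}) := Module.finite_of_finite k
  obtain ⟨i, j, hij, he⟩ : ∃ i j : ℕ, i ≠ j ∧ x ^ i = x ^ j := by
    obtain ⟨i, j, hij, he⟩ := Finite.exists_ne_map_eq_of_infinite
      (fun n : ℕ => (⟨x ^ n, Subalgebra.pow_mem _ (Algebra.self_mem_adjoin_singleton k x) n⟩ :
        Algebra.adjoin k {x}))
    exact ⟨i, j, hij, congrArg Subtype.val he⟩
  wlog hlt : i < j generalizing i j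
  · exact this j i hij.symm he.symm (by omega)
  refine ⟨j - i, by omega, ?_⟩
  have h3 : x ^ i * (x ^ (j - i) - 1) = 0 := by
    rw [mul_sub, ← pow_add, mul_one, show i + (j - i) = j by omega, he, sub_self]
  rcases mul_eq_zero.1 h3 with h4 | h4
  · have : x * x ^ i = 0 := by rw [h4, mul_zero]
    rw [← pow_succ'] at this
    exact absurd (pow_eq_zero_iff (Nat.succ_ne_zero i) |>.1 this) hx0
  · exact sub_eq_zero.1 h4

/-- A ring with (P), integral over a finite field and without zero divisors: if it is generated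
additively by integral elements then all its elements are integral. -/
theorem integral_add {k E : Type*} [Field k] [Finite k] [Ring E] [NoZeroDivisors E]
    [Algebra k E] (hP : PP E) {x y : E} (hx : IsIntegral k x) (hy : IsIntegral k y) :
    IsIntegral k (x + y) := by
  by_cases hx0 : x = 0
  · rw [hx0, zero_add]; exact hy
  obtain ⟨n, hn, h1⟩ := torsion_of_integral hx hx0
  obtain ⟨m, rfl⟩ : ∃ m, n = m + 1 := ⟨n - 1, by omega⟩
  have h2 : x + y = x * aeval (x ^ m * y) (1 + X : k[X]) := by
    simp only [map_add, map_one, aeval_X]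
    rw [mul_add, mul_one, ← mul_assoc, ← pow_succ', h1, one_mul]
  have h3 : IsIntegral k (x ^ m) := by
    have := isIntegral_aeval hx (X ^ m : k[X])
    simpa using this
  rw [h2]
  exact hP.isIntegral_mul hx (isIntegral_aeval (hP.isIntegral_mul h3 hy) _)

theorem core_comm {k E : Type*} [Field k] [Finite k] [Ring E] [Nontrivial E] [NoZeroDivisors E]
    [Algebra k E] (h : ∀ x : E, IsIntegral k x) (a b : E) : a * b = b * a := by
  obtain ⟨p, hp⟩ := CharP.exists k
  have : Fact p.Prime := ⟨(CharP.char_is_prime_or_zero k p).resolve_right (by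
    rintro rfl
    exact CharP.char_ne_zero_of_finite k 0 rfl)⟩
  have : CharP E p := charP_of_injective_algebraMap (algebraMap k E).injective p
  exact comm_of_torsion p (fun x hx => torsion_of_integral (h x) hx) a b

variable {O A : Type*} [CommRing O] [IsNoetherianRing O] [IsLocalRing O] [Ring A] [Algebra O A]

/-- The subalgebra spanned by the integral elements. -/
def intSpan (O : Type*) {A : Type*} [CommRing O] [IsNoetherianRing O] [Ring A] [Algebra O A]
    (hP : PP A) : Subalgebra O A :=
  (Submodule.span O {z : A | IsIntegral O z}).toSubalgebra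
    (Submodule.subset_span isIntegral_one)
    (by
      intro x y hx hy
      have h1 := Submodule.mul_mem_mul hx hy
      rw [Submodule.span_mul_span] at h1
      refine Submodule.span_mono ?_ h1
      rintro _ ⟨a, ha, b, hb, rfl⟩
      exact hP.isIntegral_mul ha hb)

theorem mem_intSpan {hP : PP A} {x : A} (hx : IsIntegral O x) : x ∈ intSpan O hP :=
  Submodule.subset_span (s := {z : A | IsIntegral O z}) hx

theorem mul_mem_mSpan (hP : PP A) {w s : A} (hw : w ∈ intSpan O hP) (hs : s ∈ mSpan O A) :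
    w * s ∈ mSpan O A := by
  replace hw : w ∈ Submodule.span O {z : A | IsIntegral O z} := hw
  induction hs using AddSubmonoid.closure_induction with
  | mem s hs =>
    obtain ⟨m, hm, d, hd, rfl⟩ := hs
    suffices h : ∀ m ∈ maximalIdeal O, w * (m • d) ∈ mSpan O A from h m hm
    clear hm m
    induction hw using Submodule.span_induction with
    | mem w hw =>
      intro m hm
      refine AddSubmonoid.subset_closure ⟨m, hm, w * d, hP.isIntegral_mul hw hd, ?_⟩
      rw [mul_smul_comm]
    | zero => intro m hm; rw [zero_mul]; exact zero_mem _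
    | add x y _ _ hx hy => intro m hm; rw [add_mul]; exact add_mem (hx m hm) (hy m hm)
    | smul c x _ hx =>
      intro m hm
      have := hx (c * m) (Ideal.mul_mem_left _ _ hm)
      rwa [mul_smul, mul_smul_comm, ← smul_mul_assoc] at this
  | zero => rw [mul_zero]; exact zero_mem _
  | add s t _ _ hs ht => rw [mul_add]; exact add_mem hs ht

theorem core [Finite (ResidueField O)] [Nontrivial A] (hP : PP A) {a b c : A}
    (ha : IsIntegral O a) (hb : IsIntegral O b) (hc : IsIntegral O c)
    (h : c * (a * b - b * a) = 1) : False := by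
  let B := intSpan O hP
  have hPB : PP B := hP.comap B.val.toRingHom.toMonoidHom Subtype.val_injective
  let I : Ideal B :=
    { carrier := {z : B | (z : A) ∈ mSpan O A}
      add_mem' := fun {x y} hx hy => (mSpan O A).add_mem hx hy
      zero_mem' := zero_mem (mSpan O A)
      smul_mem' := fun w z hz => mul_mem_mSpan hP w.2 hz }
  have hI1 : I ≠ ⊤ := by
    intro h1
    exact one_notMem_mSpan (O := O) hP ((Ideal.eq_top_iff_one I).1 h1)
  obtain ⟨M, hM, hIM⟩ := Ideal.exists_le_maximal I hI1
  have hMt : M.IsTwoSided := hPB.isTwoSided M hM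
  let π : B →+* B ⧸ M := Ideal.Quotient.mk M
  have hπ : Function.Surjective π := Ideal.Quotient.mk_surjective
  have hPE : PP (B ⧸ M) := hPB.map π.toMonoidHom hπ
  have hπ0 : ∀ z : B, π z = 0 ↔ z ∈ M := fun z => Ideal.Quotient.eq_zero_iff_mem
  have hnt : Nontrivial (B ⧸ M) := ⟨⟨1, 0, by
    intro h1
    rw [← map_one π, hπ0] at h1
    exact hM.ne_top ((Ideal.eq_top_iff_one M).2 h1)⟩⟩
  have hinv : ∀ x : B ⧸ M, x ≠ 0 → ∃ y, y * x = 1 := by
    intro x hx
    obtain ⟨x, rfl⟩ := hπ x
    have hxM : x ∉ M := fun h1 => hx ((hπ0 x).2 h1)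
    have h1 : (1 : B) ∈ M ⊔ Ideal.span {x} := by
      rw [hM.1.2 _ (lt_of_le_of_ne le_sup_left fun h => hxM (by
        rw [h]; exact Ideal.mem_sup_right (Ideal.subset_span rfl)))]
      trivial
    obtain ⟨u, hu, v, hv, huv⟩ := Submodule.mem_sup.1 h1
    obtain ⟨s, rfl⟩ := Ideal.mem_span_singleton'.1 hv
    refine ⟨π s, ?_⟩
    rw [← map_mul, ← map_one π, ← huv, map_add, (hπ0 u).2 hu, zero_add]
  have hnz : NoZeroDivisors (B ⧸ M) := ⟨by
    intro x y hxy
    by_contra hcon
    push Not at hcon
    obtain ⟨z, hz⟩ := hinv x hcon.1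
    exact hcon.2 (by rw [← one_mul y, ← hz, mul_assoc, hxy, mul_zero])⟩
  let φ : O →+* B ⧸ M := π.comp (algebraMap O B)
  have hφ : ∀ m ∈ maximalIdeal O, φ m = 0 := by
    intro m hm
    refine (hπ0 _).2 (hIM ?_)
    change (algebraMap O A m) ∈ mSpan O A
    exact AddSubmonoid.subset_closure ⟨m, hm, 1, isIntegral_one, by
      rw [Algebra.algebraMap_eq_smul_one]⟩
  let ψ : ResidueField O →+* B ⧸ M := Ideal.Quotient.lift (maximalIdeal O) φ hφ
  have hψ : ∀ o, ψ (residue O o) = φ o := fun o => Ideal.Quotient.lift_mk _ _ _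
  let _ : Algebra (ResidueField O) (B ⧸ M) := ψ.toAlgebra' (by
    intro k x
    obtain ⟨o, rfl⟩ := residue_surjective k
    obtain ⟨x, rfl⟩ := hπ x
    rw [hψ]
    change π (algebraMap O B o) * π x = π x * π (algebraMap O B o)
    rw [← map_mul, ← map_mul, Algebra.commutes])
  have hint : ∀ (z : A) (hz : IsIntegral O z),
      IsIntegral (ResidueField O) (π ⟨z, mem_intSpan hz⟩) := by
    intro z hz
    obtain ⟨f, hf, hfz⟩ := hz
    have hz : IsIntegral O z := ⟨f, hf, hfz⟩
    refine ⟨f.map (residue O), hf.map _, ?_⟩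
    have h1 : algebraMap (ResidueField O) (B ⧸ M) = ψ := rfl
    rw [h1, eval₂_map]
    have h2 : ψ.comp (residue O) = φ := RingHom.ext hψ
    rw [h2]
    have h3 : aeval (⟨z, mem_intSpan hz⟩ : B) f = 0 := by
      refine Subtype.ext ?_
      rw [← Subalgebra.coe_val, ← aeval_algHom_apply]
      exact hfz
    have h4 := congrArg π h3
    rw [map_zero, aeval_def, hom_eval₂] at h4
    exact h4
  have hall : ∀ x : B ⧸ M, IsIntegral (ResidueField O) x := by
    intro x
    obtain ⟨⟨z, hz⟩, rfl⟩ := hπ x
    have hz' : z ∈ Submodule.span O {z : A | IsIntegral O z} := hz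
    suffices h : ∀ (z : A) (hz' : z ∈ Submodule.span O {z : A | IsIntegral O z}) (hz : z ∈ B),
        IsIntegral (ResidueField O) (π ⟨z, hz⟩) from h z hz' hz
    intro z hz'
    induction hz' using Submodule.span_induction with
    | mem z hz => intro _; exact hint z hz
    | zero =>
      intro _
      have : π (⟨0, by assumption⟩ : B) = 0 := map_zero π
      rw [this]
      exact isIntegral_zero
    | add x y hx' hy' hx hy =>
      intro _
      have := integral_add hPE (hx hx') (hy hy')
      rwa [← map_add] at this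
    | smul o x hx' hx =>
      intro _
      have h1 := isIntegral_aeval (hx hx') (C (residue O o) * X)
      rw [map_mul, aeval_C, aeval_X] at h1
      have h2 : algebraMap (ResidueField O) (B ⧸ M) (residue O o) = φ o := hψ o
      rw [h2] at h1
      change IsIntegral _ (π (algebraMap O B o) * _) at h1
      rw [← map_mul] at h1
      convert h1 using 2
      refine Subtype.ext ?_
      change o • x = algebraMap O A o * x
      rw [Algebra.smul_def]
  have hcomm := core_comm hall
  have h5 : (⟨c, mem_intSpan hc⟩ : B) * (⟨a, mem_intSpan ha⟩ * ⟨b, mem_intSpan hb⟩ -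
      ⟨b, mem_intSpan hb⟩ * ⟨a, mem_intSpan ha⟩) = 1 := Subtype.ext h
  have h6 := congrArg π h5
  rw [map_mul, map_sub, map_mul, map_mul, hcomm (π ⟨a, _⟩), sub_self, mul_zero, map_one] at h6
  exact zero_ne_one h6

end Pool.Agent.Lib.MP_5dc4fa_al.Alg
end

section

/-!
The core statement over a field: in a nonzero ring with (P) which is an algebra over a field, the
commutator of two algebraic elements has no algebraic left inverse.
-/

namespace Pool.Agent.Lib.MP_5dc4fa_al.Alg

open Polynomial

theorem core_field {K A : Type*} [Field K] [Ring A] [Nontrivial A] (hP : PP A) (φ : K →+* A)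
    (hφ : ∀ k x, φ k * x = x * φ k) {a b c : A} (ha : φ.IsIntegralElem a)
    (hb : φ.IsIntegralElem b) (hc : φ.IsIntegralElem c) (h : c * (a * b - b * a) = 1) : False := by
  classical
  obtain ⟨fa, hfa, ea⟩ := ha
  obtain ⟨fb, hfb, eb⟩ := hb
  obtain ⟨fc, hfc, ec⟩ := hc
  obtain ⟨O, _, _, _, _, g, hg⟩ := exists_local K (fa.coeffs ∪ fb.coeffs ∪ fc.coeffs)
  let _ : Algebra O A := (φ.comp g).toAlgebra' (fun c x => hφ _ _)
  have key : ∀ (x : A) (f : K[X]), f.Monic → eval₂ φ x f = 0 →
      f.coeffs ⊆ fa.coeffs ∪ fb.coeffs ∪ fc.coeffs → IsIntegral O x := by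
    intro x f hf hx hsub
    have h1 : f ∈ lifts g := by
      rw [lifts_iff_coeffs_subset_range]
      intro t ht
      exact hg t (hsub ht)
    obtain ⟨q, hq, _, hqm⟩ := lifts_and_natDegree_eq_and_monic h1 hf
    refine ⟨q, hqm, ?_⟩
    have h2 : algebraMap O A = φ.comp g := rfl
    rw [h2, ← eval₂_map, hq, hx]
  exact core (O := O) hP (key a fa hfa ea (fun t ht => by simp [ht]))
    (key b fb hfb eb (fun t ht => by simp [ht])) (key c fc hfc ec (fun t ht => by simp [ht])) h

end Pool.Agent.Lib.MP_5dc4fa_al.Alg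
end

section

/-!
A reduced ideal with (P) all elements of which are algebraic over a field is commutative.
-/

namespace Pool.Agent.Lib.MP_5dc4fa_al.Alg

open Polynomial

variable {U : Type*} [Ring U]

theorem corner_pow {e : U} (he : IsIdempotentElem e) (x : he.Corner) (n : ℕ) :
    (x ^ (n + 1)).1 = x.1 ^ (n + 1) := by
  induction n with
  | zero => simp
  | succ n ih =>
    rw [pow_succ, pow_succ (x.1), ← ih]
    rfl

theorem corner_PP {I : Ideal U} [I.IsTwoSided] (h : PPOn I) {e : U} (he : IsIdempotentElem e)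
    (heI : e ∈ I) : PP he.Corner := by
  have hmem : ∀ x : he.Corner, x.1 ∈ I := by
    rintro ⟨_, r, rfl⟩
    exact I.mul_mem_left _ heI
  intro x y
  obtain ⟨n, hn, e1⟩ := h x.1 (hmem x) y.1 (hmem y)
  obtain ⟨k, rfl⟩ : ∃ k, n = k + 1 := ⟨n - 1, by omega⟩
  refine ⟨k + 1, hn, Subtype.ext ?_⟩
  rw [corner_pow]
  change (x.1 * y.1) ^ (k + 1) = (x ^ (k + 1)).1 * (y ^ (k + 1)).1
  rw [corner_pow, corner_pow, e1]

/-- The scalars of a corner ring. -/
def cornerMap (K : Type*) [Field K] [Algebra K U] {e : U} (he : IsIdempotentElem e) :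
    K →+* he.Corner where
  toFun k := ⟨algebraMap K U k * e, algebraMap K U k, by
    change e * algebraMap K U k * e = _
    rw [← Algebra.commutes, mul_assoc, he.eq]⟩
  map_one' := Subtype.ext (by
    change algebraMap K U 1 * e = e
    rw [map_one, one_mul])
  map_mul' x y := Subtype.ext (by
    change algebraMap K U (x * y) * e = (algebraMap K U x * e) * (algebraMap K U y * e)
    rw [← mul_assoc, mul_assoc _ e, ← Algebra.commutes, ← mul_assoc, mul_assoc _ e e, he.eq,
      map_mul])
  map_zero' := Subtype.ext (by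
    change algebraMap K U 0 * e = 0
    rw [map_zero, zero_mul])
  map_add' x y := Subtype.ext (by
    change algebraMap K U (x + y) * e = algebraMap K U x * e + algebraMap K U y * e
    rw [map_add, add_mul])

theorem cornerMap_val (K : Type*) [Field K] [Algebra K U] {e : U} (he : IsIdempotentElem e)
    (k : K) : (cornerMap K he k).1 = algebraMap K U k * e := rfl

theorem cornerMap_comm (K : Type*) [Field K] [Algebra K U] {e : U} (he : IsIdempotentElem e)
    (k : K) (x : he.Corner) : cornerMap K he k * x = x * cornerMap K he k := by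
  refine Subtype.ext ?_
  change (algebraMap K U k * e) * x.1 = x.1 * (algebraMap K U k * e)
  obtain ⟨h1, h2⟩ := (Subsemigroup.mem_corner_iff he).1 x.2
  rw [mul_assoc, h1, ← mul_assoc, ← Algebra.commutes, mul_assoc, h2]

/-- The element `e x e` of the corner ring. -/
def cornerMk {e : U} (he : IsIdempotentElem e) (x : U) : he.Corner := ⟨e * x * e, x, rfl⟩

theorem cornerMk_val {e : U} (he : IsIdempotentElem e) (x : U) :
    (cornerMk he x).1 = e * x * e := rfl

theorem cornerMk_pow {e : U} (he : IsIdempotentElem e) {x : U} (hx : e * x = x * e) (n : ℕ) :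
    ((cornerMk he x) ^ n).1 = e * x ^ n * e := by
  induction n with
  | zero =>
    rw [pow_zero, pow_zero, mul_one, he.eq]
    rfl
  | succ n ih =>
    rw [pow_succ]
    change ((cornerMk he x) ^ n).1 * (e * x * e) = _
    rw [ih]
    calc e * x ^ n * e * (e * x * e) = e * x ^ n * (e * e) * x * e := by noncomm_ring
      _ = e * x ^ n * (e * x) * e := by rw [he.eq]; noncomm_ring
      _ = e * (x ^ n * x) * (e * e) := by rw [hx]; noncomm_ring
      _ = e * x ^ (n + 1) * e := by rw [he.eq, pow_succ]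

theorem corner_integral {K : Type*} [Field K] [Algebra K U] {e : U} (he : IsIdempotentElem e)
    {x : U} (hxe : e * x = x * e) (hx : IsIntegral K x) :
    (cornerMap K he).IsIntegralElem (cornerMk he x) := by
  obtain ⟨f, hf, h0⟩ := hx
  refine ⟨f, hf, Subtype.ext ?_⟩
  have key : ∀ f : K[X], (eval₂ (cornerMap K he) (cornerMk he x) f).1 =
      e * eval₂ (algebraMap K U) x f * e := by
    intro f
    induction f using Polynomial.induction_on' with
    | add p q hp hq =>
      rw [eval₂_add, eval₂_add, mul_add, add_mul, ← hp, ← hq]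
      rfl
    | monomial n a =>
      rw [eval₂_monomial, eval₂_monomial]
      change (algebraMap K U a * e) * ((cornerMk he x) ^ n).1 = _
      rw [cornerMk_pow he hxe]
      calc algebraMap K U a * e * (e * x ^ n * e) = algebraMap K U a * (e * e) * x ^ n * e := by
            noncomm_ring
        _ = e * (algebraMap K U a * x ^ n) * e := by
            rw [he.eq, Algebra.commutes]; noncomm_ring
  rw [key, h0, mul_zero, zero_mul]
  rfl

/-- A reduced ideal with (P) all of whose elements are algebraic over a field is commutative. -/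
theorem comm_of_algebraic {K : Type*} [Field K] [Algebra K U] {I : Ideal U} [I.IsTwoSided]
    (h : PPOn I) (hred : ∀ x ∈ I, IsNilpotent x → x = 0)
    {a b : U} (ha : a ∈ I) (hb : b ∈ I) (hia : IsIntegral K a) (hib : IsIntegral K b)
    (hint : IsIntegral K (a * b - b * a)) : a * b = b * a := by
  by_contra hab
  set w := a * b - b * a with hw
  have hwI : w ∈ I := I.sub_mem (I.mul_mem_left _ hb) (I.mul_mem_left _ ha)
  have hw0 : w ≠ 0 := fun h => hab (sub_eq_zero.1 h)
  obtain ⟨q, m, h1, h2⟩ := exists_idem hint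
  set Q := aeval w q with hQ
  set e := w * Q with he
  have heI : e ∈ I := I.mul_mem_right _ hwI
  have he0 : e ≠ 0 := by
    intro he0
    rw [he0, mul_zero] at h2
    exact hw0 (hred w hwI ⟨m, h2.symm⟩)
  have hide : IsIdempotentElem e := h1
  -- `e` commutes with the elements of `I`
  have hcent : ∀ r ∈ I, e * r = r * e := by
    intro r hr
    have s1 : e * r - e * r * e = 0 := by
      refine hred _ (I.sub_mem (I.mul_mem_left _ hr) (I.mul_mem_left _ heI)) ⟨2, ?_⟩
      have : (e * r - e * r * e) ^ 2 = e * r * (e * r) - e * r * (e * r * e)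
          - e * r * (e * e * r) + e * r * (e * e * r * e) := by rw [pow_two]; noncomm_ring
      rw [this, h1]
      noncomm_ring
    have s2 : r * e - e * r * e = 0 := by
      refine hred _ (I.sub_mem (I.mul_mem_left _ heI) (I.mul_mem_left _ heI)) ⟨2, ?_⟩
      have : (r * e - e * r * e) ^ 2 = r * e * (r * e) - r * (e * e) * r * e
          - e * r * e * (r * e) + e * r * (e * e) * r * e := by rw [pow_two]; noncomm_ring
      rw [this, h1]
      noncomm_ring
    rw [sub_eq_zero.1 s1, sub_eq_zero.1 s2]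
  have hwQ : w * Q = Q * w := by
    rw [hQ]
    have := congrArg (aeval w) (mul_comm (X : K[X]) q)
    rw [map_mul, map_mul, aeval_X] at this
    exact this
  have hnt : Nontrivial hide.Corner := ⟨⟨1, 0, fun h => he0 (congrArg Subtype.val h)⟩⟩
  have hQe : e * Q = Q * e := by
    rw [he, mul_assoc, ← mul_assoc Q w, ← hwQ, mul_assoc]
  refine core_field (corner_PP h hide heI) (cornerMap K hide) (cornerMap_comm K hide)
    (corner_integral hide (hcent a ha) hia) (corner_integral hide (hcent b hb) hib)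
    (corner_integral hide hQe (isIntegral_aeval hint q)) (Subtype.ext ?_)
  change (e * Q * e) * ((e * a * e) * (e * b * e) - (e * b * e) * (e * a * e)) = e
  have tt : ∀ r ∈ I, ∀ s, (e * r * e) * (e * s * e) = e * (r * s) * e := by
    intro r hr s
    calc (e * r * e) * (e * s * e) = e * r * (e * e) * (s * e) := by noncomm_ring
      _ = e * (r * e) * (s * e) := by rw [h1, mul_assoc e r e]
      _ = (e * e) * (r * s) * e := by rw [← hcent r hr]; noncomm_ring
      _ = e * (r * s) * e := by rw [h1]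
  rw [tt a ha b, tt b hb a, ← sub_mul, ← mul_sub, ← hw]
  calc e * Q * e * (e * w * e) = e * Q * (e * e) * w * e := by noncomm_ring
    _ = e * Q * (e * w) * e := by rw [h1]; noncomm_ring
    _ = e * (w * Q) * (e * e) := by rw [hcent w hwI, hwQ]; noncomm_ring
    _ = e := by rw [← he, h1, h1]

end Pool.Agent.Lib.MP_5dc4fa_al.Alg
end

section

/-!
Under (P), if all elements of an ideal are integral over the centre, commutators are nilpotent.
-/

namespace Pool.Agent.Lib.MP_5dc4fa_al.Alg

open Polynomial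

/-- Scalar multiples of integral elements are integral. -/
theorem isIntegral_mul_algebraMap {R A : Type*} [CommRing R] [Ring A] [Algebra R A] {x : A}
    (hx : IsIntegral R x) (r : R) : IsIntegral R (algebraMap R A r * x) := by
  obtain ⟨p, hp, h⟩ := hx
  exact ⟨scaleRoots p r, (monic_scaleRoots_iff r).2 hp, scaleRoots_aeval_eq_zero h⟩

/-- The ideal of nilpotent elements of `I`. -/
theorem exists_nil_ideal {U : Type*} [Ring U] {I : Ideal U} [I.IsTwoSided] (h : PPOn I)
    (hUI : ∀ u : U, ∃ c ∈ Subring.center U, u - c ∈ I)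
    (hadd : ∀ x ∈ I, ∀ y ∈ I, IsNilpotent x → IsNilpotent y → IsNilpotent (x + y)) :
    ∃ N : Ideal U, N.IsTwoSided ∧ ∀ x, x ∈ N ↔ x ∈ I ∧ IsNilpotent x := by
  have hc : ∀ c ∈ Subring.center U, ∀ x, IsNilpotent x → IsNilpotent (c * x) := by
    intro c hc x hx
    have h1 : Commute c x := (Subring.mem_center_iff.1 hc x).symm
    exact h1.isNilpotent_mul_left hx
  let N : Ideal U :=
    { carrier := {x | x ∈ I ∧ IsNilpotent x}
      add_mem' := fun {x y} hx hy => ⟨I.add_mem hx.1 hy.1, hadd x hx.1 y hy.1 hx.2 hy.2⟩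
      zero_mem' := ⟨I.zero_mem, IsNilpotent.zero⟩
      smul_mem' := by
        rintro u x ⟨hx, hn⟩
        refine ⟨I.mul_mem_left _ hx, ?_⟩
        obtain ⟨c, hcC, hcI⟩ := hUI u
        have : u • x = c * x + (u - c) * x := by rw [smul_eq_mul]; noncomm_ring
        rw [this]
        exact hadd _ (I.mul_mem_left _ hx) _ (I.mul_mem_left _ hx) (hc c hcC x hn)
          (h.mul_nilpotent hx hcI hn) }
  refine ⟨N, ⟨?_⟩, fun x => Iff.rfl⟩
  rintro x u ⟨hx, hn⟩
  refine ⟨I.mul_mem_right _ hx, ?_⟩
  obtain ⟨c, hcC, hcI⟩ := hUI u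
  have : x * u = c * x + x * (u - c) := by
    rw [← Subring.mem_center_iff.1 hcC x]; noncomm_ring
  rw [this]
  exact hadd _ (I.mul_mem_left _ hx) _ (I.mul_mem_right _ hx) (hc c hcC x hn)
    (h.nilpotent_mul hx hcI hn)

/-- The reduced case: after factoring out the nilpotent elements. -/
theorem nilpotent_commutator_field {K U : Type*} [Field K] [Ring U] [Algebra K U] {I : Ideal U}
    [I.IsTwoSided] (h : PPOn I) (hUI : ∀ u : U, ∃ c ∈ Subring.center U, u - c ∈ I)
    (hadd : ∀ x ∈ I, ∀ y ∈ I, IsNilpotent x → IsNilpotent y → IsNilpotent (x + y))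
    {a b : U} (ha : a ∈ I) (hb : b ∈ I) (hia : IsIntegral K a) (hib : IsIntegral K b)
    (hint : IsIntegral K (a * b - b * a)) : IsNilpotent (a * b - b * a) := by
  obtain ⟨N, hN, hmem⟩ := exists_nil_ideal h hUI hadd
  let V := U ⧸ N
  let π : U →ₐ[K] V := Ideal.Quotient.mkₐ K N
  have hπ : Function.Surjective π := Ideal.Quotient.mk_surjective
  have hπ0 : ∀ z, π z = 0 ↔ z ∈ N := fun z => Ideal.Quotient.eq_zero_iff_mem
  let J : Ideal V :=
    { carrier := {z | ∃ x ∈ I, π x = z}
      add_mem' := by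
        rintro _ _ ⟨x, hx, rfl⟩ ⟨y, hy, rfl⟩
        exact ⟨x + y, I.add_mem hx hy, map_add _ _ _⟩
      zero_mem' := ⟨0, I.zero_mem, map_zero _⟩
      smul_mem' := by
        rintro c _ ⟨x, hx, rfl⟩
        obtain ⟨c, rfl⟩ := hπ c
        exact ⟨c * x, I.mul_mem_left _ hx, map_mul _ _ _⟩ }
  have hJ : J.IsTwoSided := ⟨by
    rintro _ c ⟨x, hx, rfl⟩
    obtain ⟨c, rfl⟩ := hπ c
    exact ⟨x * c, I.mul_mem_right _ hx, map_mul _ _ _⟩⟩
  have hPJ : PPOn J := by
    rintro _ ⟨x, hx, rfl⟩ _ ⟨y, hy, rfl⟩
    obtain ⟨n, hn, e⟩ := h x hx y hy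
    exact ⟨n, hn, by rw [← map_mul, ← map_pow, e, map_mul, map_pow, map_pow]⟩
  have hred : ∀ z ∈ J, IsNilpotent z → z = 0 := by
    rintro _ ⟨x, hx, rfl⟩ ⟨n, hn⟩
    rw [hπ0, hmem]
    refine ⟨hx, ?_⟩
    rw [← map_pow, hπ0, hmem] at hn
    obtain ⟨m, hm⟩ := hn.2
    exact ⟨n * m, by rw [pow_mul, hm]⟩
  have hc := comm_of_algebraic hPJ hred (a := π a) (b := π b) ⟨a, ha, rfl⟩ ⟨b, hb, rfl⟩
    (hia.map π) (hib.map π) (by rw [← map_mul, ← map_mul, ← map_sub]; exact hint.map π)
  have h1 : π (a * b - b * a) = 0 := by rw [map_sub, map_mul, map_mul, hc, sub_self]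
  exact ((hmem _).1 ((hπ0 _).1 h1)).2

/-- If all elements of `I` are integral over the centre, then commutators are nilpotent. -/
theorem PPOn.nilpotent_commutator {U : Type*} [Ring U] {I : Ideal U} [I.IsTwoSided] (h : PPOn I)
    (hUI : ∀ u : U, ∃ c ∈ Subring.center U, u - c ∈ I)
    (hint : ∀ x ∈ I, IsIntegral (Subring.center U) x) {a b : U} (ha : a ∈ I) (hb : b ∈ I) :
    IsNilpotent (a * b - b * a) := by
  classical
  by_contra hw
  set w := a * b - b * a with hwdef
  have hwI : w ∈ I := I.sub_mem (I.mul_mem_left _ hb) (I.mul_mem_left _ ha)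
  obtain ⟨K, _, U', _, _, f, I', hI', h2, h3, h4, h5, h6⟩ :=
    exists_fiber_int (C := Subring.center U) I w hw {a, b, w} (by
      intro z hz
      simp only [Finset.mem_insert, Finset.mem_singleton] at hz
      rcases hz with rfl | rfl | rfl
      · exact hint _ ha
      · exact hint _ hb
      · exact hint _ hwI)
  have hKc : ∀ κ : K, algebraMap K U' κ ∈ Subring.center U' := fun κ => by
    rw [Subring.mem_center_iff]
    exact fun g => (Algebra.commutes κ g).symm
  have hfc : ∀ c ∈ Subring.center U, f c ∈ Subring.center U' := by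
    intro c hc
    rw [Subring.mem_center_iff]
    intro g
    obtain ⟨κ, u, rfl⟩ := h2 g
    calc algebraMap K U' κ * f u * f c = algebraMap K U' κ * f (u * c) := by
          rw [map_mul]; noncomm_ring
      _ = algebraMap K U' κ * (f c * f u) := by rw [Subring.mem_center_iff.1 hc u, map_mul]
      _ = f c * (algebraMap K U' κ * f u) := by
          rw [← mul_assoc, Algebra.commutes κ (f c), mul_assoc]
  let ψ : Subring.center U →+* Subring.center U' :=
    { toFun := fun c => ⟨f c, hfc c c.2⟩
      map_one' := Subtype.ext (map_one f)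
      map_mul' := fun x y => Subtype.ext (map_mul f _ _)
      map_zero' := Subtype.ext (map_zero f)
      map_add' := fun x y => Subtype.ext (map_add f _ _) }
  have hUI' : ∀ u : U', ∃ c ∈ Subring.center U', u - c ∈ I' := by
    intro u'
    obtain ⟨κ, u, rfl⟩ := h2 u'
    obtain ⟨c, hc, hcI⟩ := hUI u
    refine ⟨algebraMap K U' κ * f c, Subring.mul_mem _ (hKc κ) (hfc c hc), ?_⟩
    rw [← mul_sub, ← map_sub]
    exact I'.mul_mem_left _ (h3 _ hcI)
  have hint' : ∀ x' ∈ I', IsIntegral (Subring.center U') x' := by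
    intro x' hx'
    obtain ⟨κ, x, hx, rfl⟩ := h4 x' hx'
    have h7 : IsIntegral (Subring.center U') (f x) := by
      obtain ⟨p, hp, hpx⟩ := hint x hx
      refine ⟨p.map ψ, hp.map _, ?_⟩
      rw [eval₂_map]
      have e1 : (algebraMap (Subring.center U') U').comp ψ =
          f.comp (algebraMap (Subring.center U) U) := RingHom.ext fun c => rfl
      rw [e1, ← hom_eval₂, hpx, map_zero]
    exact isIntegral_mul_algebraMap h7 (⟨algebraMap K U' κ, hKc κ⟩ : Subring.center U')
  have hP' : PPOn I' := h.fiber f h4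
  have hadd : ∀ x ∈ I', ∀ y ∈ I', IsNilpotent x → IsNilpotent y → IsNilpotent (x + y) := by
    intro x hx y hy hnx hny
    exact hP'.nilpotent_add' (C := Subring.center U') hx hy hnx hny
      (hint' _ (I'.add_mem hx hy))
  refine h5 ?_
  have h8 := nilpotent_commutator_field (K := K) hP' hUI' hadd (h3 a ha) (h3 b hb)
    (h6 a (by simp)) (h6 b (by simp)) (by
      rw [← map_mul, ← map_mul, ← map_sub]
      exact h6 w (by simp))
  rwa [← map_mul, ← map_mul, ← map_sub] at h8

end Pool.Agent.Lib.MP_5dc4fa_al.Alg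
end

section

/-!
Algebras all elements of which are algebraic over the (commutative) ring of coefficients, with
leading coefficients which are not zero divisors.
-/

namespace Pool.Agent.Lib.MP_5dc4fa_al.Alg

open Polynomial

section loc

variable {C U : Type*} [CommRing C] [Ring U] [Algebra C U] (S : Submonoid C)

/-- The localized ideal. -/
def locIdeal (I : Ideal U) : Ideal (LocalizedModule S U) where
  carrier := {z | ∃ x ∈ I, ∃ s : S, z = LocalizedModule.mk x s}
  add_mem' := by
    rintro _ _ ⟨x, hx, s, rfl⟩ ⟨y, hy, t, rfl⟩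
    refine ⟨t • x + s • y, ?_, s * t, ?_⟩
    · rw [Submonoid.smul_def, Submonoid.smul_def, Algebra.smul_def, Algebra.smul_def]
      exact I.add_mem (I.mul_mem_left _ hx) (I.mul_mem_left _ hy)
    · rw [LocalizedModule.mk_add_mk]
  zero_mem' := ⟨0, I.zero_mem, 1, by rw [LocalizedModule.zero_mk]⟩
  smul_mem' := by
    rintro c _ ⟨x, hx, s, rfl⟩
    induction c using LocalizedModule.induction_on with
    | _ m t =>
      refine ⟨m * x, I.mul_mem_left _ hx, t * s, ?_⟩
      rw [smul_eq_mul, LocalizedModule.mk_mul_mk]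

theorem locIdeal_twoSided (I : Ideal U) [I.IsTwoSided] : (locIdeal S I).IsTwoSided := ⟨by
  rintro _ c ⟨x, hx, s, rfl⟩
  induction c using LocalizedModule.induction_on with
  | _ m t =>
    refine ⟨x * m, I.mul_mem_right _ hx, s * t, ?_⟩
    rw [LocalizedModule.mk_mul_mk]⟩

theorem PPOn.loc {I : Ideal U} (h : PPOn I) : PPOn (locIdeal S I) := by
  rintro _ ⟨x, hx, s, rfl⟩ _ ⟨y, hy, t, rfl⟩
  obtain ⟨n, hn, e⟩ := h x hx y hy
  refine ⟨n, hn, ?_⟩
  rw [LocalizedModule.mk_mul_mk, LocalizedModule.mk_pow, LocalizedModule.mk_pow,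
    LocalizedModule.mk_pow, LocalizedModule.mk_mul_mk, e, mul_pow]

theorem mk_central {c : U} (hc : c ∈ Subring.center U) (s : S) :
    (LocalizedModule.mk c s : LocalizedModule S U) ∈ Subring.center (LocalizedModule S U) := by
  rw [Subring.mem_center_iff]
  intro g
  induction g using LocalizedModule.induction_on with
  | _ m t =>
    rw [LocalizedModule.mk_mul_mk, LocalizedModule.mk_mul_mk, mul_comm t s,
      Subring.mem_center_iff.1 hc m]

theorem mk_integral {x : U} (s : S) {n : ℕ} (c : Fin (n + 1) → C) (hc : c (Fin.last n) ∈ S)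
    (h : ∑ i, c i • x ^ ((i : ℕ) + 1) = 0) :
    IsIntegral (Subring.center (LocalizedModule S U))
      (LocalizedModule.mk x s : LocalizedModule S U) := by
  have hcen : ∀ (d : C) (t : S), (LocalizedModule.mk (algebraMap C U d) t : LocalizedModule S U) ∈
      Subring.center (LocalizedModule S U) := fun d t =>
    mk_central S (Subring.mem_center_iff.2 fun g => (Algebra.commutes d g).symm) t
  let m : C → S → Subring.center (LocalizedModule S U) := fun d t => ⟨_, hcen d t⟩
  -- it suffices to treat `s = 1`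
  suffices h1 : IsIntegral (Subring.center (LocalizedModule S U))
      (LocalizedModule.mk x 1 : LocalizedModule S U) by
    have h2 := isIntegral_mul_algebraMap h1 (m 1 s)
    have h3 : (algebraMap (Subring.center (LocalizedModule S U)) (LocalizedModule S U) (m 1 s)) *
        (LocalizedModule.mk x 1 : LocalizedModule S U) = LocalizedModule.mk x s := by
      change LocalizedModule.mk (algebraMap C U 1) s * LocalizedModule.mk x 1 = _
      rw [LocalizedModule.mk_mul_mk, map_one, one_mul, mul_one]
    rwa [h3] at h2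
  let d : S := ⟨c (Fin.last n), hc⟩
  let q : (Subring.center (LocalizedModule S U))[X] :=
    X ^ (n + 1) + ∑ i : Fin n, monomial ((i : ℕ) + 1) (m (c i.castSucc) d)
  have hq : q.Monic := by
    refine monic_X_pow_add ?_
    refine lt_of_le_of_lt (degree_sum_le _ _) ?_
    rw [Finset.sup_lt_iff (WithBot.bot_lt_coe _)]
    intro i _
    refine lt_of_le_of_lt (degree_monomial_le _ _) ?_
    exact_mod_cast Nat.succ_lt_succ i.2
  refine ⟨q, hq, ?_⟩
  rw [eval₂_add, eval₂_X_pow, eval₂_finsetSum]
  have e1 : ∀ i : ℕ, (LocalizedModule.mk x 1 : LocalizedModule S U) ^ i =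
      LocalizedModule.mk (x ^ i) 1 := fun i => by
    rw [LocalizedModule.mk_pow, one_pow]
  have e2 : ∀ i : Fin n, eval₂ (algebraMap (Subring.center (LocalizedModule S U))
      (LocalizedModule S U)) (LocalizedModule.mk x 1) (monomial ((i : ℕ) + 1) (m (c i.castSucc) d)) =
      LocalizedModule.mk (c i.castSucc • x ^ ((i : ℕ) + 1)) d := by
    intro i
    rw [eval₂_monomial, e1]
    change LocalizedModule.mk (algebraMap C U (c i.castSucc)) d * LocalizedModule.mk _ 1 = _
    rw [LocalizedModule.mk_mul_mk, mul_one, Algebra.smul_def]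
  rw [Finset.sum_congr rfl fun i _ => e2 i, e1]
  have e3 : (LocalizedModule.mk (x ^ (n + 1)) 1 : LocalizedModule S U) =
      LocalizedModule.mk (c (Fin.last n) • x ^ (n + 1)) d := by
    rw [LocalizedModule.mk_eq]
    refine ⟨1, ?_⟩
    rw [one_smul, one_smul, one_smul]
    rfl
  let L : U →+ LocalizedModule S U :=
    { toFun := fun z => LocalizedModule.mk z d
      map_zero' := LocalizedModule.zero_mk d
      map_add' := fun a b => by
        rw [LocalizedModule.mk_add_mk, LocalizedModule.mk_eq]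
        exact ⟨1, by simp [smul_add, smul_smul]⟩ }
  have e4 := congrArg L h
  rw [map_sum, map_zero, Fin.sum_univ_castSucc] at e4
  rw [e3, add_comm]
  exact e4

end loc

section nonunital

variable {R V : Type*} [NonUnitalRing R] [Ring V]

theorem nil_iff (ι : R →ₙ+* V) (hι : Function.Injective ι) (x : R) :
    (∃ m : ℕ, (fun z : R => z * x)^[m] x = 0) ↔ IsNilpotent (ι x) := by
  constructor
  · rintro ⟨m, hm⟩
    exact ⟨m + 1, by rw [iota_pow_succ, hm, map_zero]⟩
  · rintro ⟨k, hk⟩
    rcases k with _ | k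
    · refine ⟨0, hι ?_⟩
      rw [pow_zero] at hk
      rw [Function.iterate_zero, id, map_zero, ← mul_one (ι x), hk, mul_zero]
    · rw [iota_pow_succ] at hk
      exact ⟨k, hι (by rw [hk, map_zero])⟩

/-- The two-sided ideal of nilpotent elements. -/
theorem exists_nilideal (ι : R →ₙ+* V) (hι : Function.Injective ι) {J : Ideal V}
    (hJ : ∀ x, ι x ∈ J) (h : PPOn J)
    (hadd : ∀ x y : R, IsNilpotent (ι x) → IsNilpotent (ι y) → IsNilpotent (ι x + ι y)) :
    ∃ N : TwoSidedIdeal R, ∀ x, x ∈ N ↔ ∃ m : ℕ, (fun z : R => z * x)^[m] x = 0 := by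
  refine ⟨TwoSidedIdeal.mk' {x : R | IsNilpotent (ι x)} ?_ ?_ ?_ ?_ ?_, ?_⟩
  · simp
  · intro x y hx hy
    change IsNilpotent (ι (x + y))
    rw [map_add]
    exact hadd x y hx hy
  · intro x hx
    change IsNilpotent (ι (-x))
    rw [map_neg]
    exact IsNilpotent.neg hx
  · intro x y hy
    change IsNilpotent (ι (x * y))
    rw [map_mul]
    exact h.mul_nilpotent (hJ y) (hJ x) hy
  · intro x y hx
    change IsNilpotent (ι (x * y))
    rw [map_mul]
    exact h.nilpotent_mul (hJ x) (hJ y) hx
  · intro x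
    rw [TwoSidedIdeal.mem_mk', nil_iff ι hι]
    rfl

end nonunital

section final

variable {C R : Type*} [CommRing C] [NonUnitalRing R] [Module C R] [IsScalarTower C R R]
  [SMulCommClass C R R]

/-- The ideal `R` of the unitization. -/
def kerIdeal (C R : Type*) [CommRing C] [NonUnitalRing R] [Module C R] [IsScalarTower C R R]
    [SMulCommClass C R R] : Ideal (Unitization C R) where
  carrier := {u | u.fst = 0}
  add_mem' := fun {x y} hx hy => by
    change (x + y).fst = 0
    rw [Unitization.fst_add, show x.fst = 0 from hx, show y.fst = 0 from hy, add_zero]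
  zero_mem' := rfl
  smul_mem' := fun c x hx => by
    change (c * x).fst = 0
    rw [Unitization.fst_mul, show x.fst = 0 from hx, mul_zero]

theorem mem_kerIdeal {u : Unitization C R} : u ∈ kerIdeal C R ↔ ∃ r : R, u = Unitization.inr r := by
  constructor
  · intro h
    refine ⟨u.snd, ?_⟩
    have h' : u.fst = 0 := h
    ext
    · simp [h']
    · simp
  · rintro ⟨r, rfl⟩
    change (Unitization.inr r : Unitization C R).fst = 0
    simp

theorem kerIdeal_twoSided : (kerIdeal C R).IsTwoSided := ⟨fun {x} c hx => by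
  change (x * c).fst = 0
  rw [Unitization.fst_mul, show x.fst = 0 from hx, zero_mul]⟩

/-- `R → Unitization C R`. -/
def inrHom (C R : Type*) [CommRing C] [NonUnitalRing R] [Module C R] [IsScalarTower C R R]
    [SMulCommClass C R R] : R →ₙ+* Unitization C R where
  toFun := fun r => Unitization.inr r
  map_mul' := fun x y => Unitization.inr_mul C x y
  map_zero' := Unitization.inr_zero C
  map_add' := fun x y => Unitization.inr_add C x y

theorem PPOn_ker (hP : CondP R) : PPOn (kerIdeal C R) := by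
  intro x hx y hy
  obtain ⟨x, rfl⟩ := mem_kerIdeal.1 hx
  obtain ⟨y, rfl⟩ := mem_kerIdeal.1 hy
  obtain ⟨n, hn, h⟩ := hP x y
  refine ⟨n + 1, by omega, ?_⟩
  have h1 := congrArg (inrHom C R) h
  rw [map_mul, ← iota_pow_succ, ← iota_pow_succ, ← iota_pow_succ, map_mul] at h1
  exact h1

/-- Algebras all elements of which are algebraic over the ring of coefficients, with leading
coefficients which are not zero divisors on `R`. -/
theorem algebraic_main (hP : CondP R)
    (halg : ∀ x : R, ∃ (n : ℕ) (c : Fin (n + 1) → C), (∀ r : R, c (Fin.last n) • r = 0 → r = 0) ∧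
      ∑ i, c i • (fun z : R => z * x)^[(i : ℕ)] x = 0) :
    ∃ N : TwoSidedIdeal R, (∀ x, x ∈ N ↔ ∃ m : ℕ, (fun z : R => z * x)^[m] x = 0) ∧
      ∀ x y, x * y - y * x ∈ N := by
  let S : Submonoid C :=
    { carrier := {c | ∀ r : R, c • r = 0 → r = 0}
      mul_mem' := fun {c d} hc hd r hr => hd r (hc _ (by rw [← mul_smul]; exact hr))
      one_mem' := fun r hr => by rwa [one_smul] at hr }
  let U := Unitization C R
  let V := LocalizedModule S U
  let I : Ideal U := kerIdeal C R
  have hI : I.IsTwoSided := kerIdeal_twoSided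
  let J : Ideal V := locIdeal S I
  have hJ : J.IsTwoSided := locIdeal_twoSided S I
  have hPJ : PPOn J := (PPOn_ker hP).loc S
  let f : U →+* V := LocalizedModule.numeratorRingHom
  have hf : ∀ u, f u = LocalizedModule.mk u 1 := fun _ => rfl
  let ι : R →ₙ+* V :=
    { toFun := fun r => f (inrHom C R r)
      map_mul' := fun x y => by rw [map_mul, map_mul]
      map_zero' := by rw [map_zero, map_zero]
      map_add' := fun x y => by rw [map_add, map_add] }
  have hιdef : ∀ r, ι r = LocalizedModule.mk (Unitization.inr r : U) 1 := fun _ => rfl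
  have hι : Function.Injective ι := by
    rw [injective_iff_map_eq_zero]
    intro r hr
    rw [hιdef, ← LocalizedModule.zero_mk (1 : S), LocalizedModule.mk_eq] at hr
    obtain ⟨s, hs⟩ := hr
    rw [one_smul, one_smul, smul_zero, Submonoid.smul_def, ← Unitization.inr_smul] at hs
    exact s.2 r (Unitization.inr_injective (R := C) (by rw [hs, Unitization.inr_zero]))
  have hιJ : ∀ x, ι x ∈ J := fun x => ⟨_, mem_kerIdeal.2 ⟨x, rfl⟩, 1, rfl⟩
  have hint : ∀ z ∈ J, IsIntegral (Subring.center V) z := by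
    rintro _ ⟨x, hx, s, rfl⟩
    obtain ⟨x, rfl⟩ := mem_kerIdeal.1 hx
    obtain ⟨n, c, hc, h⟩ := halg x
    refine mk_integral S s c hc ?_
    have h1 := congrArg (inrHom C R) h
    rw [map_sum, map_zero] at h1
    rw [← h1]
    refine Finset.sum_congr rfl fun i _ => ?_
    have h2 : (Unitization.inr x : U) ^ ((i : ℕ) + 1) =
        inrHom C R ((fun z : R => z * x)^[(i : ℕ)] x) := iota_pow_succ (inrHom C R) x i
    rw [h2]
    exact (Unitization.inr_smul C (c i) _).symm
  have hUI : ∀ u : V, ∃ c ∈ Subring.center V, u - c ∈ J := by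
    intro u
    induction u using LocalizedModule.induction_on with
    | _ m s =>
      refine ⟨LocalizedModule.mk (algebraMap C U m.fst) s, mk_central S
        (Subring.mem_center_iff.2 fun g => (Algebra.commutes _ g).symm) s, ?_⟩
      refine ⟨Unitization.inr m.snd, mem_kerIdeal.2 ⟨_, rfl⟩, s, ?_⟩
      rw [sub_eq_iff_eq_add, LocalizedModule.mk_add_mk, LocalizedModule.mk_eq]
      refine ⟨1, ?_⟩
      rw [one_smul, one_smul, ← smul_add, smul_smul]
      congr 1
      rw [add_comm]
      exact (Unitization.inl_fst_add_inr_snd_eq m).symm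
  have hadd : ∀ x ∈ J, ∀ y ∈ J, IsNilpotent x → IsNilpotent y → IsNilpotent (x + y) :=
    fun x hx y hy hnx hny => hPJ.nilpotent_add' (C := Subring.center V) hx hy hnx hny
      (hint _ (J.add_mem hx hy))
  obtain ⟨N, hN⟩ := exists_nilideal ι hι hιJ hPJ
    (fun x y hx hy => hadd _ (hιJ x) _ (hιJ y) hx hy)
  refine ⟨N, hN, fun x y => ?_⟩
  rw [hN, nil_iff ι hι, map_sub, map_mul, map_mul]
  exact hPJ.nilpotent_commutator hUI hint (hιJ x) (hιJ y)

end final

end Pool.Agent.Lib.MP_5dc4fa_al.Alg
end
end
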