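import Mathlib
import Pool.Agent.Lib.MP_5dc4fa_al.Alg.Final

/-!
In a ring with (P) having a central element which is not a zero divisor, the nilpotent elements
form a two-sided ideal.
-/

namespace Pool.Agent.Lib.MP_5dc4fa_al.Alg

open Polynomial

section

variable {R U : Type*} [NonUnitalRing R] [Ring U] (ι : R →ₙ+* U) (π : U →+* ℤ)

theorem PPOn_kerZ (hπ : ∀ w : U, π w = 0 ↔ ∃ r, ι r = w) (hP : CondP R) :
    PPOn (RingHom.ker π) := by
  intro x hx y hy
  obtain ⟨x, rfl⟩ := (hπ x).1 hx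
  obtain ⟨y, rfl⟩ := (hπ y).1 hy
  obtain ⟨n, hn, h⟩ := hP x y
  refine ⟨n + 1, by omega, ?_⟩
  have h1 := congrArg ι h
  rw [map_mul, ← iota_pow_succ, ← iota_pow_succ, ← iota_pow_succ, map_mul] at h1
  exact h1

theorem nilpotent_of_central_mul (hι : Function.Injective ι) {c : R}
    (hc : ∀ r : R, c * r = r * c)
    (hreg : ∀ r : R, c * r = 0 → r = 0) {z : R} (h : IsNilpotent (ι (c * z))) :
    IsNilpotent (ι z) := by
  obtain ⟨k, hk⟩ := h
  have hcomm : Commute (ι c) (ι z) := by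
    change _ * _ = _ * _
    rw [← map_mul, hc, map_mul]
  rw [map_mul, hcomm.mul_pow] at hk
  rcases k with _ | k
  · rw [pow_zero, pow_zero, mul_one] at hk
    exact ⟨1, by rw [pow_one, ← mul_one (ι z), hk, mul_zero]⟩
  · refine ⟨k + 1, ?_⟩
    rw [iota_pow_succ ι z] at hk ⊢
    rw [regular_pow ι hι hreg (k + 1) _ hk, map_zero]

theorem nilpotent_mul_one_add (hι : Function.Injective ι) (hπ : ∀ w : U, π w = 0 ↔ ∃ r, ι r = w)
    (hP : CondP R) {c : R} (hc : ∀ r : R, c * r = r * c)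
    (hreg : ∀ r : R, c * r = 0 → r = 0) {x : R} (hx : IsNilpotent (ι x)) (y : R) :
    IsNilpotent (ι (x + x * y)) := by
  refine nilpotent_of_central_mul ι hι hc hreg ?_
  have : c * (x + x * y) = x * (c + c * y) := by
    rw [mul_add, mul_add, hc x, ← mul_assoc, hc x, mul_assoc]
  rw [this, map_mul]
  exact (PPOn_kerZ ι π hπ hP).nilpotent_mul ((hπ _).2 ⟨_, rfl⟩) ((hπ _).2 ⟨_, rfl⟩) hx

theorem nilpotent_one_add_mul (hι : Function.Injective ι) (hπ : ∀ w : U, π w = 0 ↔ ∃ r, ι r = w)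
    (hP : CondP R) {c : R} (hc : ∀ r : R, c * r = r * c)
    (hreg : ∀ r : R, c * r = 0 → r = 0) {x : R} (hx : IsNilpotent (ι x)) (y : R) :
    IsNilpotent (ι (x + y * x)) := by
  refine nilpotent_of_central_mul ι hι hc hreg ?_
  have : c * (x + y * x) = (c + c * y) * x := by
    rw [mul_add, add_mul, mul_assoc]
  rw [this, map_mul]
  exact (PPOn_kerZ ι π hπ hP).mul_nilpotent ((hπ _).2 ⟨_, rfl⟩) ((hπ _).2 ⟨_, rfl⟩) hx

theorem pow_one_add (x : R) (n : ℕ) :
    ∃ r : R, (1 + ι x) ^ n = 1 + ι r := by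
  induction n with
  | zero => exact ⟨0, by rw [pow_zero, map_zero, add_zero]⟩
  | succ n ih =>
    obtain ⟨r, hr⟩ := ih
    refine ⟨r + x + r * x, ?_⟩
    rw [pow_succ, hr, map_add, map_add, map_mul]
    noncomm_ring

theorem large_one_add (hι : Function.Injective ι) (hπ : ∀ w : U, π w = 0 ↔ ∃ r, ι r = w)
    (hP : CondP R) {c : R} (hc : ∀ r : R, c * r = r * c)
    (hreg : ∀ r : R, c * r = 0 → r = 0) (B : ℕ) (x y : R) :
    ∃ n : ℕ, B < n ∧ ((1 + ι x) * (1 + ι y)) ^ n =
      (1 + ι x) ^ n * (1 + ι y) ^ n := by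
  have base := fun x y => condP_unital ι π hι hπ hP c hc hreg x y
  induction B with
  | zero =>
    obtain ⟨n, hn, e⟩ := base x y
    exact ⟨n, by omega, e⟩
  | succ B ih =>
    obtain ⟨n, hn, e⟩ := ih
    obtain ⟨r, hr⟩ := pow_one_add ι x n
    obtain ⟨s, hs⟩ := pow_one_add ι y n
    obtain ⟨m, hm, e'⟩ := base r s
    refine ⟨n * m, ?_, ?_⟩
    · nlinarith
    · rw [pow_mul, e, hr, hs, e', pow_mul, hr, pow_mul, hs]

theorem integral_of_nilpotent {A : Type*} [Ring A] {x : A} (hx : IsNilpotent x) :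
    IsIntegral ℤ x := by
  obtain ⟨k, hk⟩ := hx
  refine ⟨X ^ k, monic_X_pow k, ?_⟩
  rw [eval₂_X_pow, hk]

theorem nilpotent_circ (hι : Function.Injective ι) (hπ : ∀ w : U, π w = 0 ↔ ∃ r, ι r = w)
    (hP : CondP R) {c : R} (hc : ∀ r : R, c * r = r * c)
    (hreg : ∀ r : R, c * r = 0 → r = 0) {x y : R} (hx : IsNilpotent (ι x))
    (hy : IsNilpotent (ι y)) : IsNilpotent (ι (x + y + x * y)) := by
  classical
  set z := ι (x + y + x * y) with hz
  have hmem : ∀ r, ι r ∈ RingHom.ker π := fun r => (hπ _).2 ⟨r, rfl⟩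
  have hint : IsIntegral ℤ z := by
    have h1 : IsIntegral ℤ (1 + z) := by
      refine isIntegral_of_large ((Algebra.adjoin ℤ {ι x}).toSubmodule *
        (Algebra.adjoin ℤ {ι y}).toSubmodule)
        ((integral_of_nilpotent hx).fg_adjoin_singleton.mul
          (integral_of_nilpotent hy).fg_adjoin_singleton) _ fun B => ?_
      obtain ⟨n, hn, e⟩ := large_one_add ι π hι hπ hP hc hreg B x y
      have e1 : (1 + ι x) * (1 + ι y) = 1 + z := by
        rw [hz, map_add, map_add, map_mul]; noncomm_ring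
      rw [e1] at e
      refine ⟨n, hn, ?_⟩
      rw [e]
      exact Submodule.mul_mem_mul
        (Subalgebra.pow_mem _ (Subalgebra.add_mem _ (Subalgebra.one_mem _)
          (Algebra.self_mem_adjoin_singleton ℤ _)) n)
        (Subalgebra.pow_mem _ (Subalgebra.add_mem _ (Subalgebra.one_mem _)
          (Algebra.self_mem_adjoin_singleton ℤ _)) n)
    have h2 := isIntegral_aeval h1 (X - 1 : ℤ[X])
    simpa using h2
  by_contra hw
  obtain ⟨K, _, U', _, _, f, I', hI', h2, h3, h4, h5, h6⟩ :=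
    exists_fiber_int (C := ℤ) (RingHom.ker π) z hw {z} (by
      intro w hw
      rw [Finset.mem_singleton.1 hw]
      exact hint)
  have hint' := h6 z (Finset.mem_singleton_self _)
  have e1 : f z = f (ι (x + x * y)) + f (ι y) := by
    rw [hz, ← map_add, ← map_add]
    congr 2
    abel
  rw [e1] at hint' h5
  exact h5 (((PPOn_kerZ ι π hπ hP).fiber f h4).nilpotent_add (h3 _ (hmem _)) (h3 _ (hmem _))
    ((nilpotent_mul_one_add ι π hι hπ hP hc hreg hx y).map f) (hy.map f) hint')

theorem exists_quasi_inverse {x : R} (hx : IsNilpotent (ι x)) :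
    ∃ r : R, (1 + ι x) * (1 + ι r) = 1 := by
  obtain ⟨k, hk⟩ := hx
  have hk' : (-ι x) ^ k = 0 := by rw [neg_pow, hk, mul_zero]
  have h1 := mul_neg_geom_sum (-ι x) k
  rw [hk', sub_zero, sub_neg_eq_add] at h1
  have h2 : ∀ k : ℕ, ∃ s : R, ∑ i ∈ Finset.range (k + 1), (-ι x) ^ i = 1 + ι s := by
    intro k
    induction k with
    | zero => exact ⟨0, by simp⟩
    | succ k ih =>
      obtain ⟨s, hs⟩ := ih
      refine ⟨s + (fun z : R => z * (-x))^[k] (-x), ?_⟩
      rw [Finset.sum_range_succ, hs, map_add, ← map_neg, iota_pow_succ ι, add_assoc]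
  rcases k with _ | k
  · rw [pow_zero] at hk
    refine ⟨0, ?_⟩
    calc (1 + ι x) * (1 + ι 0) = ((1 + ι x) * (1 + ι 0)) * 1 := (mul_one _).symm
      _ = 1 := by rw [hk, mul_zero]
  · obtain ⟨s, hs⟩ := h2 k
    exact ⟨s, by rw [← hs]; exact h1⟩

theorem nilpotent_add_of_central (hι : Function.Injective ι)
    (hπ : ∀ w : U, π w = 0 ↔ ∃ r, ι r = w) (hP : CondP R) {c : R} (hc : ∀ r : R, c * r = r * c)
    (hreg : ∀ r : R, c * r = 0 → r = 0) {x y : R} (hx : IsNilpotent (ι x))
    (hy : IsNilpotent (ι y)) : IsNilpotent (ι x + ι y) := by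
  obtain ⟨r, hr⟩ := exists_quasi_inverse ι hx
  have hy' : IsNilpotent (ι (y + r * y)) := nilpotent_one_add_mul ι π hι hπ hP hc hreg hy r
  have h3 := nilpotent_circ ι π hι hπ hP hc hreg hx hy'
  have e : ι (x + (y + r * y) + x * (y + r * y)) = ι x + (1 + ι x) * (1 + ι r) * ι y := by
    simp only [map_add, map_mul, mul_add, add_mul, mul_assoc, one_mul, mul_one]
    abel
  rwa [e, hr, one_mul] at h3

end

theorem nilideal_main {R : Type*} [NonUnitalRing R] (hP : CondP R) (c : R)
    (hc : ∀ r : R, c * r = r * c) (hreg : ∀ r : R, c * r = 0 → r = 0) :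
    ∃ N : TwoSidedIdeal R, ∀ x, x ∈ N ↔ ∃ m : ℕ, (fun z : R => z * x)^[m] x = 0 := by
  obtain ⟨U, _, ι, π, hι, hπ⟩ := exists_unital R
  exact exists_nilideal ι hι (J := RingHom.ker π) (fun x => (hπ _).2 ⟨x, rfl⟩)
    (PPOn_kerZ ι π hπ hP)
    (fun x y hx hy => nilpotent_add_of_central ι π hι hπ hP hc hreg hx hy)

/-- Iterates and homomorphisms. -/
theorem map_iter {S R : Type*} [NonUnitalRing S] [NonUnitalRing R] (f : S →ₙ+* R) (x : S) (n : ℕ) :
    f ((fun z : S => z * x)^[n] x) = (fun z : R => z * f x)^[n] (f x) := by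
  induction n with
  | zero => rfl
  | succ n ih => rw [Function.iterate_succ_apply', Function.iterate_succ_apply', ← ih, map_mul]

theorem condP_subring {R : Type*} [NonUnitalRing R] (hP : CondP R) (S : NonUnitalSubring R) :
    CondP S := by
  intro x y
  obtain ⟨n, hn, h⟩ := hP x y
  let f : S →ₙ+* R := NonUnitalSubringClass.subtype S
  have hf : Function.Injective f := Subtype.val_injective
  refine ⟨n, hn, hf ?_⟩
  rw [map_mul, map_iter, map_iter, map_iter, map_mul]
  exact h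

/-- The nilpotent elements form an ideal if every pair of elements commutes with an element which
is not a zero divisor on the subring they generate. -/
theorem nilideal_main' {R : Type*} [NonUnitalRing R] (hP : CondP R)
    (hc : ∀ x y : R, ∃ c : R, c * x = x * c ∧ c * y = y * c ∧
      ∀ r ∈ NonUnitalSubring.closure ({x, y, c} : Set R), c * r = 0 → r = 0) :
    ∃ N : TwoSidedIdeal R, ∀ x, x ∈ N ↔ ∃ m : ℕ, (fun z : R => z * x)^[m] x = 0 := by
  obtain ⟨U, _, ι, π, hι, hπ⟩ := exists_unital R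
  refine exists_nilideal ι hι (J := RingHom.ker π) (fun x => (hπ _).2 ⟨x, rfl⟩)
    (PPOn_kerZ ι π hπ hP) (fun x y hx hy => ?_)
  obtain ⟨c, hcx, hcy, hreg⟩ := hc x y
  let S := NonUnitalSubring.closure ({x, y, c} : Set R)
  have hxS : x ∈ S := NonUnitalSubring.subset_closure (by simp)
  have hyS : y ∈ S := NonUnitalSubring.subset_closure (by simp)
  have hcS : c ∈ S := NonUnitalSubring.subset_closure (by simp)
  have hcc : ∀ r ∈ S, c * r = r * c := by
    intro r hr
    induction hr using NonUnitalSubring.closure_induction with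
    | mem z hz =>
      simp only [Set.mem_insert_iff, Set.mem_singleton_iff] at hz
      rcases hz with rfl | rfl | rfl
      · exact hcx
      · exact hcy
      · rfl
    | zero => rw [mul_zero, zero_mul]
    | add a b _ _ ha hb => rw [mul_add, add_mul, ha, hb]
    | neg a _ ha => rw [mul_neg, neg_mul, ha]
    | mul a b _ _ ha hb => rw [← mul_assoc, ha, mul_assoc, hb, mul_assoc]
  have hPS : CondP S := condP_subring hP S
  obtain ⟨N, hN⟩ := nilideal_main (R := S) hPS ⟨c, hcS⟩
    (fun r => Subtype.ext (hcc r r.2))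
    (fun r hr => Subtype.ext (hreg r r.2 (congrArg Subtype.val hr)))
  let f : S →ₙ+* R := NonUnitalSubringClass.subtype S
  have hf : Function.Injective f := Subtype.val_injective
  have key : ∀ s : S, (∃ m : ℕ, (fun z : S => z * s)^[m] s = 0) ↔ IsNilpotent (ι (s : R)) := by
    intro s
    rw [← nil_iff ι hι]
    constructor
    · rintro ⟨m, hm⟩
      refine ⟨m, ?_⟩
      have := map_iter f s m
      rw [hm, map_zero] at this
      exact this.symm
    · rintro ⟨m, hm⟩
      refine ⟨m, hf ?_⟩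
      rw [map_iter, map_zero]
      exact hm
  have h1 : (⟨x, hxS⟩ : S) ∈ N := (hN _).2 ((key _).2 hx)
  have h2 : (⟨y, hyS⟩ : S) ∈ N := (hN _).2 ((key _).2 hy)
  have h3 := (key _).1 ((hN _).1 (N.add_mem h1 h2))
  rw [← map_add]
  exact h3

end Pool.Agent.Lib.MP_5dc4fa_al.Alg
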